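import Mathlib
import Pool.Agent.Helper467.FP.Defs
import Pool.Agent.H735G.Defs

/-!
ROOM GEN, block 4 (`OneGenThm`): the split.

* `PartA` : matrix units of size `4` exist in every `(A, τ)` with `NoAbA A`
  (halving of projections, comparison in an abstract tracial von Neumann algebra).
* `PartB` : the relative commutant of `4 × 4` matrix units is again such an algebra.
* `PartD` : the matrix trick.
-/

set_option autoImplicit false

open Filter

noncomputable section

namespace Pool.Agent.H594R3.GEN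

open Pool.Agent.H467F Pool.Agent.H735G

/-- `4 × 4` matrix units with sum `1`. -/
structure MU {A : Type} [CStarAlgebra A] (e : Fin 4 → Fin 4 → A) : Prop where
  star : ∀ i j, star (e i j) = e j i
  mul : ∀ i j k l, e i j * e k l = if j = k then e i l else 0
  sum : ∑ i, e i i = 1

/-- HALVING: every projection is the sum of two equivalent ones. -/
def Halving : Prop :=
  ∀ (A : Type) [CStarAlgebra A] (τ : A →ₗ[ℂ] ℂ), TW τ → NoAbA A →
    ∀ e : A, star e = e → e * e = e → ∃ v : A, star v * v + v * star v = e ∧ v * v = 0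

/-- PART A. -/
def PartA : Prop :=
  ∀ (A : Type) [CStarAlgebra A] (τ : A →ₗ[ℂ] ℂ), TW τ → NoAbA A →
    ∃ e : Fin 4 → Fin 4 → A, MU e

/-- PART B. -/
def PartB : Prop :=
  ∀ (A : Type) [CStarAlgebra A] (τ : A →ₗ[ℂ] ℂ) (e : Fin 4 → Fin 4 → A), TW τ → SepT τ → NoAbA A →
    MU e → ∃ (B : Type) (_ : CStarAlgebra B) (ι : B →⋆ₐ[ℂ] A) (σ : B →ₗ[ℂ] ℂ),
      (∀ b, σ b = τ (ι b)) ∧ TW σ ∧ SepT σ ∧ NoAbA B ∧
      ∀ x : A, (∀ i j, x * e i j = e i j * x) ↔ ∃ b, ι b = x

/-- PART D: the matrix trick. -/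
def PartD : Prop :=
  ∀ (A : Type) [CStarAlgebra A] (τ : A →ₗ[ℂ] ℂ) (e : Fin 4 → Fin 4 → A) (y : Fin 4 → A), TW τ →
    MU e → (∀ i, star (y i) = y i) → (∀ k i j, y k * e i j = e i j * y k) →
    (∀ x : A, (∀ i j, x * e i j = e i j * x) → x ∈ Cl τ (StarAlgebra.adjoin ℂ (Set.range y) : Set A)) →
    ∃ T : A, GenT τ {T}

end Pool.Agent.H594R3.GEN
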