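import Mathlib
import Pool.Agent.H594R3.GEN.O1
import Pool.Agent.Helper467.FP.P_exists_closure

/-!
ROOM GEN, block 4: `PartD`, the matrix trick in an abstract tracial von Neumann algebra.
-/

set_option autoImplicit false

open Filter Polynomial

noncomputable section

namespace Pool.Agent.H594R3.GEN

open Pool.Agent.H467F Pool.Agent.H735G

variable {A : Type} [CStarAlgebra A]

/-- the diagonal element `∑ i • e i i` -/
def dA (e : Fin 4 → Fin 4 → A) : A := ∑ i : Fin 4, ((i : ℕ) : ℂ) • e i i

theorem MU.aeval_dA {e : Fin 4 → Fin 4 → A} (he : MU e) (p : ℂ[X]) :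
    aeval (dA e) p = ∑ i : Fin 4, (p.eval ((i : ℕ) : ℂ)) • e i i := by
  induction p using Polynomial.induction_on with
  | C a =>
    simp only [aeval_C, eval_C]
    rw [← Finset.smul_sum, he.sum, Algebra.algebraMap_eq_smul_one]
  | add p q hp hq =>
    rw [map_add, hp, hq, ← Finset.sum_add_distrib]
    refine Finset.sum_congr rfl fun i _ => ?_
    rw [eval_add, add_smul]
  | monomial n a ih =>
    rw [pow_succ, ← mul_assoc, map_mul, ih, aeval_X, dA, Finset.sum_mul]
    refine Finset.sum_congr rfl fun i _ => ?_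
    rw [Finset.mul_sum, Finset.sum_eq_single i]
    · rw [smul_mul_smul_comm, he.mul, if_pos rfl, eval_mul_X]
    · intro j _ hj
      rw [smul_mul_smul_comm, he.mul, if_neg (Ne.symm hj), smul_zero]
    · intro h; exact absurd (Finset.mem_univ i) h

theorem MU.diag_mem {e : Fin 4 → Fin 4 → A} (he : MU e) (S : StarSubalgebra ℂ A)
    (h : dA e ∈ S) (i : Fin 4) : e i i ∈ S := by
  have hinj : Set.InjOn (fun i : Fin 4 => ((i : ℕ) : ℂ)) (Finset.univ : Finset (Fin 4)) := by
    intro a _ b _ hab
    have : ((a : ℕ) : ℂ) = ((b : ℕ) : ℂ) := hab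
    exact Fin.ext (by exact_mod_cast this)
  have key := he.aeval_dA (Lagrange.basis Finset.univ (fun i : Fin 4 => ((i : ℕ) : ℂ)) i)
  have h2 : ∑ j : Fin 4, ((Lagrange.basis Finset.univ (fun i : Fin 4 => ((i : ℕ) : ℂ)) i).eval
      ((j : ℕ) : ℂ)) • e j j = e i i := by
    rw [Finset.sum_eq_single i]
    · have := Lagrange.eval_basis_self (s := Finset.univ) (v := fun i : Fin 4 => ((i : ℕ) : ℂ))
        (i := i) hinj (Finset.mem_univ i)
      rw [this, one_smul]
    · intro j _ hj
      have := Lagrange.eval_basis_of_ne (s := Finset.univ) (v := fun i : Fin 4 => ((i : ℕ) : ℂ))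
        (i := i) (j := j) (Ne.symm hj) (Finset.mem_univ j)
      rw [this, zero_smul]
    · intro h; exact absurd (Finset.mem_univ i) h
  rw [h2] at key
  rw [← key]
  have h3 := aeval_mem_adjoin_singleton ℂ (dA e)
    (p := Lagrange.basis Finset.univ (fun i : Fin 4 => ((i : ℕ) : ℂ)) i)
  have h4 : Algebra.adjoin ℂ {dA e} ≤ S.toSubalgebra :=
    Algebra.adjoin_le (Set.singleton_subset_iff.2 h)
  exact h4 h3

/-- the second half of the generator -/
def dB (e : Fin 4 → Fin 4 → A) (y : Fin 4 → A) : A :=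
  ∑ i : Fin 4, y i * e i i + ((e 0 1 + e 1 0) + (e 0 2 + e 2 0) + (e 0 3 + e 3 0))

theorem MU.row {e : Fin 4 → Fin 4 → A} (he : MU e) {y : Fin 4 → A}
    (hc : ∀ k i j, y k * e i j = e i j * y k) (i : Fin 4) (hi : i ≠ 0) :
    e 0 0 * dB e y * e i i = e 0 i := by
  have h1 : ∀ k, e 0 0 * (y k * e k k) * e i i = 0 := by
    intro k
    rw [← mul_assoc, ← hc, mul_assoc (y k), he.mul]
    split_ifs with h
    · subst h
      rw [mul_assoc, he.mul, if_neg (Ne.symm hi), mul_zero]
    · rw [mul_zero, zero_mul]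
  unfold dB
  rw [mul_add, add_mul, Finset.mul_sum, Finset.sum_mul, Finset.sum_eq_zero fun k _ => h1 k, zero_add]
  simp only [mul_add, add_mul, he.mul]
  fin_cases i <;> simp_all [he.mul]

theorem MU.corner {e : Fin 4 → Fin 4 → A} (he : MU e) {y : Fin 4 → A}
    (hc : ∀ k i j, y k * e i j = e i j * y k) (i : Fin 4) :
    e i i * dB e y * e i i = y i * e i i := by
  have h1 : ∑ k, e i i * (y k * e k k) * e i i = y i * e i i := by
    rw [Finset.sum_eq_single i]
    · rw [← mul_assoc, ← hc, mul_assoc (y i), he.mul, if_pos rfl, mul_assoc, he.mul, if_pos rfl]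
    · intro k _ hk
      rw [← mul_assoc, ← hc, mul_assoc (y k), he.mul, if_neg (Ne.symm hk), mul_zero, zero_mul]
    · intro h; exact absurd (Finset.mem_univ i) h
  unfold dB
  rw [mul_add, add_mul, Finset.mul_sum, Finset.sum_mul, h1]
  simp only [mul_add, add_mul, he.mul]
  fin_cases i <;> simp [he.mul]

theorem MU.y_eq {e : Fin 4 → Fin 4 → A} (he : MU e) {y : Fin 4 → A}
    (hc : ∀ k i j, y k * e i j = e i j * y k) (i : Fin 4) :
    ∑ k, e k i * (y i * e i i) * e i k = y i := by
  have : ∀ k, e k i * (y i * e i i) * e i k = y i * e k k := by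
    intro k
    rw [← mul_assoc, ← hc, mul_assoc (y i), he.mul, if_pos rfl, mul_assoc, he.mul, if_pos rfl]
  rw [Finset.sum_congr rfl fun k _ => this k, ← Finset.mul_sum, he.sum, mul_one]

/-- the matrix coefficients -/
def co (e : Fin 4 → Fin 4 → A) (x : A) (i j : Fin 4) : A := ∑ k, e k i * x * e j k

theorem MU.co_comm {e : Fin 4 → Fin 4 → A} (he : MU e) (x : A) (i j a b : Fin 4) :
    co e x i j * e a b = e a b * co e x i j := by
  unfold co
  rw [Finset.sum_mul, Finset.mul_sum, Finset.sum_eq_single a, Finset.sum_eq_single b]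
  · rw [mul_assoc, he.mul, if_pos rfl, ← mul_assoc, ← mul_assoc, he.mul, if_pos rfl]
  · intro k _ hk
    rw [← mul_assoc, ← mul_assoc, he.mul, if_neg (Ne.symm hk), zero_mul, zero_mul]
  · intro h; exact absurd (Finset.mem_univ _) h
  · intro k _ hk
    rw [mul_assoc, he.mul, if_neg hk, mul_zero]
  · intro h; exact absurd (Finset.mem_univ _) h

theorem MU.expand {e : Fin 4 → Fin 4 → A} (he : MU e) (x : A) :
    ∑ i, ∑ j, co e x i j * e i j = x := by
  have h1 : ∀ i j, co e x i j * e i j = e i i * x * e j j := by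
    intro i j
    unfold co
    rw [Finset.sum_mul, Finset.sum_eq_single i]
    · rw [mul_assoc, he.mul, if_pos rfl]
    · intro k _ hk
      rw [mul_assoc, he.mul, if_neg hk, mul_zero]
    · intro h; exact absurd (Finset.mem_univ _) h
  simp only [h1]
  simp only [← Finset.mul_sum, ← Finset.sum_mul, he.sum, one_mul, mul_one]

theorem partD : PartD := by
  intro A _ τ e y h he hsa hc hgen
  have hAsa : star (dA e) = dA e := by
    unfold dA
    rw [star_sum]
    refine Finset.sum_congr rfl fun i _ => ?_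
    rw [star_smul, he.star]
    congr 1
    simp
  have hBsa : star (dB e y) = dB e y := by
    unfold dB
    simp only [star_add, star_sum, star_mul, he.star, hsa]
    congr 1
    · refine Finset.sum_congr rfl fun i _ => (hc i i i).symm
    · rw [add_comm (e 1 0), add_comm (e 2 0), add_comm (e 3 0)]
  obtain ⟨T, hT⟩ : ∃ T, T = dA e + Complex.I • dB e y := ⟨_, rfl⟩
  refine ⟨T, ?_⟩
  obtain ⟨W, hWs, hW, hle⟩ := exists_closure h (StarAlgebra.adjoin ℂ {T})
  have hTm : T ∈ W := hle (StarAlgebra.self_mem_adjoin_singleton ℂ T)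
  have hTs : star T ∈ W := star_mem (S := StarSubalgebra ℂ A) hTm
  have hst : star T = dA e - Complex.I • dB e y := by
    rw [hT, star_add, star_smul, hAsa, hBsa, Complex.star_def, Complex.conj_I, neg_smul,
      sub_eq_add_neg]
  have hAm : dA e ∈ W := by
    have : dA e = (1 / 2 : ℂ) • (T + star T) := by
      rw [hst, hT]
      have : dA e + Complex.I • dB e y + (dA e - Complex.I • dB e y) = (2 : ℂ) • dA e := by
        rw [two_smul]; abel
      rw [this, smul_smul]; norm_num
    rw [this]
    exact W.smul_mem (W.add_mem hTm hTs) _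
  have hBm : dB e y ∈ W := by
    have : dB e y = (-Complex.I / 2 : ℂ) • (T - star T) := by
      rw [hst, hT]
      have : dA e + Complex.I • dB e y - (dA e - Complex.I • dB e y) =
          (2 * Complex.I : ℂ) • dB e y := by
        rw [mul_smul, two_smul]; abel
      rw [this, smul_smul]
      have h5 : (-Complex.I / 2 * (2 * Complex.I) : ℂ) = 1 := by
        have : (-Complex.I / 2 * (2 * Complex.I) : ℂ) = -(Complex.I * Complex.I) := by ring
        rw [this, Complex.I_mul_I, neg_neg]
      rw [h5, one_smul]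
    rw [this]
    exact W.smul_mem (W.sub_mem hTm hTs) _
  have hd : ∀ i, e i i ∈ W := he.diag_mem W hAm
  have h0 : ∀ i, e 0 i ∈ W := by
    intro i
    by_cases hi : i = 0
    · subst hi; exact hd 0
    · rw [← he.row hc i hi]
      exact W.mul_mem (W.mul_mem (hd 0) hBm) (hd i)
  have h0' : ∀ i, e i 0 ∈ W := by
    intro i
    rw [← he.star]
    exact star_mem (S := StarSubalgebra ℂ A) (h0 i)
  have hij : ∀ i j, e i j ∈ W := by
    intro i j
    have : e i j = e i 0 * e 0 j := by rw [he.mul, if_pos rfl]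
    rw [this]
    exact W.mul_mem (h0' i) (h0 j)
  have hy : ∀ i, y i ∈ W := by
    intro i
    rw [← he.y_eq hc i]
    refine W.sum_mem fun k _ => W.mul_mem (W.mul_mem (hij _ _) ?_) (hij _ _)
    rw [← he.corner hc i]
    exact W.mul_mem (W.mul_mem (hd i) hBm) (hd i)
  have hadj : StarAlgebra.adjoin ℂ (Set.range y) ≤ W :=
    StarAlgebra.adjoin_le (by rintro _ ⟨i, rfl⟩; exact hy i)
  have hcm : ∀ x : A, (∀ i j, x * e i j = e i j * x) → x ∈ W := by
    intro x hx
    refine hW x ?_
    intro ε hε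
    obtain ⟨z, hz, hz2⟩ := hgen x hx ε hε
    exact ⟨z, hadj hz, hz2⟩
  intro x
  rw [← hWs]
  show x ∈ W
  rw [← he.expand x]
  exact W.sum_mem fun i _ => W.sum_mem fun j _ =>
    W.mul_mem (hcm _ fun a b => he.co_comm x i j a b) (hij i j)

end Pool.Agent.H594R3.GEN
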