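import Mathlib
import Pool.Agent.H594R3.GEN.O2
import Pool.Agent.Helper467.FP.P_isClosed_of_isW

/-!
ROOM GEN, block 4: `PartB`, the relative commutant of matrix units.
-/

set_option autoImplicit false

open Filter
open scoped Topology

noncomputable section

namespace Pool.Agent.H594R3.GEN

open Pool.Agent.H467F Pool.Agent.H735G

section sub

variable {A : Type} [CStarAlgebra A] {τ : A →ₗ[ℂ] ℂ}

/-- The C*-algebra structure of a von Neumann subalgebra. -/
abbrev cstarOf (h : TW τ) (W : StarSubalgebra ℂ A) (hW : IsW τ W) : CStarAlgebra W :=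
  StarSubalgebra.cstarAlgebra (h_closed := isClosed_of_isW h W hW) W

/-- the restriction of the trace -/
def res (τ : A →ₗ[ℂ] ℂ) (W : StarSubalgebra ℂ A) : W →ₗ[ℂ] ℂ :=
  τ.comp (W.subtype : W →⋆ₐ[ℂ] A).toAlgHom.toLinearMap

theorem res_apply (W : StarSubalgebra ℂ A) (x : W) : res τ W x = τ (x : A) := rfl

theorem n2_res (W : StarSubalgebra ℂ A) (x : W) : n2 (res τ W) x = n2 τ (x : A) := rfl

theorem tw_sub (h : TW τ) (W : StarSubalgebra ℂ A) (hW : IsW τ W) :
    @TW W (cstarOf h W hW) (res τ W) := by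
  letI := cstarOf h W hW
  refine ⟨?_, ?_, ?_, ?_, ?_, ?_⟩
  · exact h.one
  · intro x y; exact h.comm _ _
  · intro x; exact h.nonneg _
  · intro x; exact h.conj _
  · intro x hx
    exact Subtype.ext (h.faithful _ hx)
  · intro x hx1 hx2
    obtain ⟨y, hy1, hy2⟩ := h.complete (fun n => (x n : A)) hx1 hx2
    have hyW : y ∈ W := by
      refine hW y ?_
      intro ε hε
      obtain ⟨n, hn⟩ := ((hy2.eventually (gt_mem_nhds hε)).exists)
      exact ⟨x n, (x n).2, by rwa [n2_sub_comm]⟩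
    exact ⟨⟨y, hyW⟩, hy1, hy2⟩

theorem sep_sub (h : TW τ) (hs : SepT τ) (W : StarSubalgebra ℂ A) (hW : IsW τ W) :
    @SepT W (cstarOf h W hW) (res τ W) := by
  classical
  letI := cstarOf h W hW
  obtain ⟨s, hs⟩ := hs
  -- for each `n, k` an element of `W` closer than `1 / (k + 1)` to `s n`
  let f : ℕ × ℕ → W := fun p =>
    if hp : ∃ w : W, n2 τ ((w : A) - s p.1) < 1 / (p.2 + 1 : ℝ) then hp.choose else 0
  refine ⟨fun n => f (Nat.unpair n), ?_⟩
  intro x ε hε
  obtain ⟨k, hk⟩ := exists_nat_one_div_lt (half_pos hε)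
  obtain ⟨n, hn⟩ := hs (x : A) (1 / (k + 1 : ℝ)) (by positivity)
  refine ⟨Nat.pair n k, ?_⟩
  show n2 (res τ W) (x - f (Nat.unpair (Nat.pair n k))) < ε
  rw [Nat.unpair_pair]
  have hp : ∃ w : W, n2 τ ((w : A) - s (n, k).1) < 1 / ((n, k).2 + 1 : ℝ) := ⟨x, hn⟩
  have hf : f (n, k) = hp.choose := dif_pos hp
  have h1 := hp.choose_spec
  rw [← hf] at h1
  rw [n2_res]
  show n2 τ ((x : A) - (f (n, k) : A)) < ε
  have h2 := h.n2_tri (x : A) (s n) (f (n, k) : A)
  rw [n2_sub_comm τ (s n)] at h2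
  calc n2 τ ((x : A) - (f (n, k) : A)) ≤ n2 τ ((x : A) - s n) + n2 τ ((f (n, k) : A) - s n) := h2
    _ < ε / 2 + ε / 2 := add_lt_add (hn.trans hk) (h1.trans hk)
    _ = ε := by ring

theorem isW_centralizer (h : TW τ) (s : Set A) : IsW τ (StarSubalgebra.centralizer ℂ s) := by
  intro x hx
  rw [StarSubalgebra.mem_centralizer_iff]
  have key : ∀ g : A, (∀ z ∈ StarSubalgebra.centralizer ℂ s, g * z = z * g) → g * x = x * g := by
    intro g hg
    rw [← sub_eq_zero]
    refine h.eq_zero ?_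
    refine le_antisymm (le_of_forall_pos_lt_add fun ε hε => ?_) (n2_nonneg _ _)
    rw [zero_add]
    obtain ⟨z, hz, hxz⟩ := hx (ε / (2 * (‖g‖ + 1))) (by positivity)
    have e : g * x - x * g = g * (x - z) - (x - z) * g := by
      rw [mul_sub, sub_mul, hg z hz]; abel
    rw [e]
    have h1 := h.n2_sub_le (g * (x - z)) ((x - z) * g)
    have h2 := (n2_mul_le h g (x - z)).1
    have h3 := (n2_mul_le h g (x - z)).2
    have h4 : 0 ≤ ‖g‖ := norm_nonneg g
    have h5 : n2 τ (x - z) * (2 * (‖g‖ + 1)) < ε := by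
      rwa [lt_div_iff₀ (by positivity)] at hxz
    have h6 := n2_nonneg τ (x - z)
    nlinarith
  intro g hg
  refine ⟨key g fun z hz => ?_, key (star g) fun z hz => ?_⟩
  · exact ((StarSubalgebra.mem_centralizer_iff ℂ).1 hz g hg).1
  · exact ((StarSubalgebra.mem_centralizer_iff ℂ).1 hz g hg).2

end sub

theorem partB : PartB := by
  intro A _ τ e h hsep hab he
  obtain ⟨s, hs⟩ : ∃ s : Set A, s = Set.range (fun p : Fin 4 × Fin 4 => e p.1 p.2) := ⟨_, rfl⟩
  have hW := isW_centralizer h s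
  obtain ⟨W, hWd⟩ : ∃ W, W = StarSubalgebra.centralizer ℂ s := ⟨_, rfl⟩
  rw [← hWd] at hW
  have hmem : ∀ x : A, x ∈ W ↔ ∀ i j, x * e i j = e i j * x := by
    intro x
    rw [hWd, StarSubalgebra.mem_centralizer_iff]
    constructor
    · intro hx i j
      exact ((hx (e i j) (by rw [hs]; exact ⟨(i, j), rfl⟩)).1).symm
    · intro hx g hg
      rw [hs] at hg
      obtain ⟨p, rfl⟩ := hg
      refine ⟨(hx _ _).symm, ?_⟩
      show star (e p.1 p.2) * x = x * star (e p.1 p.2)
      rw [he.star]; exact (hx _ _).symm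
  letI := cstarOf h W hW
  refine ⟨W, inferInstance, W.subtype, res τ W, fun b => rfl, tw_sub h W hW, sep_sub h hsep W hW,
    ?_, ?_⟩
  · -- no abelian projection
    intro p hp hpp hp0
    have hq0 : (p : A) * e 0 0 ≠ 0 := by
      intro h0
      apply hp0
      apply Subtype.ext
      show (p : A) = 0
      have hc := (hmem (p : A)).1 p.2
      calc (p : A) = ∑ i, (p : A) * e i i := by rw [← Finset.mul_sum, he.sum, mul_one]
        _ = ∑ i, e i 0 * ((p : A) * e 0 0) * e 0 i := by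
            refine Finset.sum_congr rfl fun i _ => ?_
            rw [← mul_assoc, ← hc, mul_assoc (p : A), he.mul, if_pos rfl, mul_assoc, he.mul,
              if_pos rfl]
        _ = 0 := by simp [h0]
    have hc := (hmem (p : A)).1 p.2
    have hps : star (p : A) = (p : A) := congrArg Subtype.val hp
    have hppA : (p : A) * (p : A) = (p : A) := congrArg Subtype.val hpp
    obtain ⟨q, hq⟩ : ∃ q, q = (p : A) * e 0 0 := ⟨_, rfl⟩
    have hqs : star q = q := by rw [hq, star_mul, he.star, hps, hc]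
    have hqq : q * q = q := by
      rw [hq]
      calc (p : A) * e 0 0 * ((p : A) * e 0 0) = (p : A) * (e 0 0 * (p : A)) * e 0 0 := by
            simp only [mul_assoc]
        _ = ((p : A) * (p : A)) * (e 0 0 * e 0 0) := by rw [← hc]; simp only [mul_assoc]
        _ = (p : A) * e 0 0 := by rw [hppA, he.mul, if_pos rfl]
    rw [← hq] at hq0
    obtain ⟨x, y, hxy⟩ := hab q hqs hqq hq0
    have hco : ∀ z : A, co e z 0 0 ∈ W := fun z => (hmem _).2 fun a b => he.co_comm z 0 0 a b
    refine ⟨⟨co e x 0 0, hco x⟩, ⟨co e y 0 0, hco y⟩, ?_⟩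
    intro hcon
    apply hxy
    have hcon' : ((p : A) * co e x 0 0 * (p : A)) * ((p : A) * co e y 0 0 * (p : A)) =
        ((p : A) * co e y 0 0 * (p : A)) * ((p : A) * co e x 0 0 * (p : A)) :=
      congrArg Subtype.val hcon
    have hz : ∀ z : A, q * z * q = ((p : A) * co e z 0 0 * (p : A)) * e 0 0 := by
      intro z
      have h1 : co e z 0 0 * e 0 0 = e 0 0 * z * e 0 0 := by
        unfold co
        rw [Finset.sum_mul, Finset.sum_eq_single 0]
        · rw [mul_assoc, he.mul, if_pos rfl]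
        · intro k _ hk
          rw [mul_assoc, he.mul, if_neg hk, mul_zero]
        · intro h; exact absurd (Finset.mem_univ _) h
      calc q * z * q = (p : A) * (e 0 0 * z * ((p : A) * e 0 0)) := by
            rw [hq]; simp only [mul_assoc]
        _ = (p : A) * (e 0 0 * z * (e 0 0 * (p : A))) := by rw [hc]
        _ = (p : A) * ((e 0 0 * z * e 0 0) * (p : A)) := by simp only [mul_assoc]
        _ = (p : A) * (co e z 0 0 * e 0 0 * (p : A)) := by rw [h1]
        _ = (p : A) * (co e z 0 0 * (e 0 0 * (p : A))) := by simp only [mul_assoc]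
        _ = (p : A) * (co e z 0 0 * ((p : A) * e 0 0)) := by rw [hc]
        _ = _ := by simp only [mul_assoc]
    have hcp : ∀ z : A, e 0 0 * ((p : A) * co e z 0 0 * (p : A)) =
        ((p : A) * co e z 0 0 * (p : A)) * e 0 0 := by
      intro z
      have h1 := he.co_comm z 0 0 0 0
      calc e 0 0 * ((p : A) * co e z 0 0 * (p : A)) = (e 0 0 * (p : A)) * (co e z 0 0 * (p : A)) := by
            simp only [mul_assoc]
        _ = (p : A) * (e 0 0 * co e z 0 0) * (p : A) := by rw [← hc]; simp only [mul_assoc]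
        _ = (p : A) * co e z 0 0 * (e 0 0 * (p : A)) := by rw [← h1]; simp only [mul_assoc]
        _ = _ := by rw [← hc]; simp only [mul_assoc]
    obtain ⟨X, hX⟩ : ∃ X, X = (p : A) * co e x 0 0 * (p : A) := ⟨_, rfl⟩
    obtain ⟨Y, hY⟩ : ∃ Y, Y = (p : A) * co e y 0 0 * (p : A) := ⟨_, rfl⟩
    have hX1 := hz x
    have hY1 := hz y
    have hX2 := hcp x
    have hY2 := hcp y
    rw [← hX] at hX1 hX2
    rw [← hY] at hY1 hY2
    rw [← hX, ← hY] at hcon'
    rw [hX1, hY1]
    calc X * e 0 0 * (Y * e 0 0) = X * (e 0 0 * Y) * e 0 0 := by simp only [mul_assoc]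
      _ = (X * Y) * (e 0 0 * e 0 0) := by rw [hY2]; simp only [mul_assoc]
      _ = (Y * X) * (e 0 0 * e 0 0) := by rw [hcon']
      _ = Y * (X * e 0 0) * e 0 0 := by simp only [mul_assoc]
      _ = Y * (e 0 0 * X) * e 0 0 := by rw [hX2]
      _ = _ := by simp only [mul_assoc]
  · intro x
    rw [← hmem x]
    exact ⟨fun hx => ⟨⟨x, hx⟩, rfl⟩, by rintro ⟨b, rfl⟩; exact b.2⟩

end Pool.Agent.H594R3.GEN
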