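import Mathlib
import Pool.Agent.H594R3.GEN.O3
import Pool.Agent.Helper467.FP.P_polar
import Pool.Agent.Helper467.FP.P_exists_lim
import Pool.Agent.Helper467.FP.P_n2_mul_le

/-!
ROOM GEN, block 4: halving of projections in an abstract tracial von Neumann algebra, under the
hypothesis `SQZ` that every nonzero corner contains a nonzero element of square zero.
-/

set_option autoImplicit false

open Filter
open scoped Topology

noncomputable section

namespace Pool.Agent.H594R3.GEN

open Pool.Agent.H467F Pool.Agent.H735G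

/-- maximal elements for a transitive relation along which increasing sequences have upper bounds -/
theorem exists_maxl {P : Type*} (R : P → P → Prop) (φ : P → ℝ) (C : ℝ)
    (hrefl : ∀ a, R a a) (htr : ∀ a b c, R a b → R b c → R a c) (hφ : ∀ a, φ a ≤ C)
    (hmono : ∀ a b, R a b → φ a ≤ φ b)
    (hub : ∀ s : ℕ → P, (∀ n, R (s n) (s (n + 1))) → ∃ b, ∀ n, R (s n) b) (a : P) :
    ∃ b, R a b ∧ ∀ c, R b c → φ c = φ b := by
  classical
  have hstep : ∀ (n : ℕ) (x : P), ∃ y, R x y ∧ ∀ z, R x z → φ z ≤ φ y + (1 / 2) ^ n := by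
    intro n x
    have hbdd : BddAbove (φ '' {z | R x z}) := ⟨C, by rintro _ ⟨z, _, rfl⟩; exact hφ z⟩
    have hne : (φ '' {z | R x z}).Nonempty := ⟨φ x, x, hrefl x, rfl⟩
    have hlt : sSup (φ '' {z | R x z}) - (1 / 2) ^ n < sSup (φ '' {z | R x z}) := by
      have : (0 : ℝ) < (1 / 2) ^ n := by positivity
      linarith
    obtain ⟨_, ⟨y, hy, rfl⟩, hy2⟩ := exists_lt_of_lt_csSup hne hlt
    refine ⟨y, hy, fun z hz => ?_⟩
    have := le_csSup hbdd ⟨z, hz, rfl⟩
    linarith
  choose f hf1 hf2 using hstep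
  let s : ℕ → P := fun n => Nat.rec a (fun n x => f n x) n
  have hs0 : s 0 = a := rfl
  have hs : ∀ n, s (n + 1) = f n (s n) := fun n => rfl
  have hsR : ∀ n, R (s n) (s (n + 1)) := fun n => by rw [hs]; exact hf1 n (s n)
  obtain ⟨b, hb⟩ := hub s hsR
  refine ⟨b, hs0 ▸ hb 0, fun c hc => le_antisymm ?_ (hmono b c hc)⟩
  have h1 : ∀ n, φ c ≤ φ b + (1 / 2) ^ n := by
    intro n
    have h2 := hf2 n (s n) c (htr _ _ _ (hb n) hc)
    rw [← hs] at h2
    have h3 := hmono _ _ (hb (n + 1))
    linarith
  have h4 : Tendsto (fun n : ℕ => φ b + (1 / 2 : ℝ) ^ n) atTop (𝓝 (φ b + 0)) :=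
    tendsto_const_nhds.add (tendsto_pow_atTop_nhds_zero_of_lt_one (by norm_num) (by norm_num))
  rw [add_zero] at h4
  exact ge_of_tendsto' h4 h1

section lim

variable {A : Type} [CStarAlgebra A] {τ : A →ₗ[ℂ] ℂ}

/-- convergence in the 2-norm -/
def L2 (τ : A →ₗ[ℂ] ℂ) (x : ℕ → A) (y : A) : Prop :=
  Tendsto (fun n => n2 τ (x n - y)) atTop (𝓝 0)

theorem L2.const (x : A) : L2 τ (fun _ => x) x := by
  unfold L2
  simp only [sub_self, n2_zero]
  exact tendsto_const_nhds

theorem L2.uniq (h : TW τ) {x : ℕ → A} {y z : A} (hy : L2 τ x y) (hz : L2 τ x z) : y = z := by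
  have h1 : Tendsto (fun n => n2 τ (x n - y) + n2 τ (x n - z)) atTop (𝓝 (0 + 0)) := hy.add hz
  have h2 : ∀ n, n2 τ (y - z) ≤ n2 τ (x n - y) + n2 τ (x n - z) := by
    intro n
    have := h.n2_tri y (x n) z
    rwa [n2_sub_comm τ y (x n)] at this
  have h3 : n2 τ (y - z) ≤ 0 := by
    rw [add_zero] at h1
    exact ge_of_tendsto' h1 h2
  exact sub_eq_zero.1 (h.eq_zero (le_antisymm h3 (n2_nonneg _ _)))

theorem L2.star (h : TW τ) {x : ℕ → A} {y : A} (hx : L2 τ x y) :
    L2 τ (fun n => star (x n)) (star y) := by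
  unfold L2 at *
  simpa only [← star_sub, h.n2_star] using hx

theorem L2.mul (h : TW τ) {x x' : ℕ → A} {y y' : A} (hx : L2 τ x y) (hx' : L2 τ x' y') (C : ℝ)
    (hC : ∀ n, ‖x n‖ ≤ C) : L2 τ (fun n => x n * x' n) (y * y') := by
  unfold L2 at *
  have h1 : Tendsto (fun n => C * n2 τ (x' n - y') + n2 τ (x n - y) * ‖y'‖) atTop
      (𝓝 (C * 0 + 0 * ‖y'‖)) := (hx'.const_mul C).add (hx.mul_const _)
  rw [mul_zero, zero_mul, add_zero] at h1
  refine squeeze_zero (fun n => n2_nonneg _ _) (fun n => ?_) h1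
  have e : x n * x' n - y * y' = x n * (x' n - y') + (x n - y) * y' := by
    rw [mul_sub, sub_mul]; abel
  rw [e]
  refine (h.n2_add_le _ _).trans (add_le_add ?_ (n2_mul_le h _ _).2)
  exact (n2_mul_le h _ _).1.trans (mul_le_mul_of_nonneg_right (hC n) (n2_nonneg _ _))

theorem L2.congr {x x' : ℕ → A} {y : A} (hx : L2 τ x y) (N : ℕ) (hxx : ∀ n ≥ N, x n = x' n) :
    L2 τ x' y := by
  unfold L2 at *
  refine hx.congr' ?_
  filter_upwards [eventually_ge_atTop N] with n hn
  rw [hxx n hn]

end lim

section half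

variable {A : Type} [CStarAlgebra A] {τ : A →ₗ[ℂ] ℂ}

/-- partial isometries of square zero in the corner `e A e` -/
structure PIs (e v : A) : Prop where
  l : e * v = v
  r : v * e = v
  sq : v * v = 0
  pi : v * star v * v = v

theorem PIs.pi' {e v : A} (hv : PIs e v) : star v * v * star v = star v := by
  have := congrArg star hv.pi
  simpa only [star_mul, star_star, mul_assoc] using this

theorem PIs.sq' {e v : A} (hv : PIs e v) : star v * star v = 0 := by
  rw [← star_mul, hv.sq, star_zero]

theorem PIs.l' {e v : A} (he : star e = e) (hv : PIs e v) : e * star v = star v := by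
  have := congrArg star hv.r
  rwa [star_mul, he] at this

theorem PIs.r' {e v : A} (he : star e = e) (hv : PIs e v) : star v * e = star v := by
  have := congrArg star hv.l
  rwa [star_mul, he] at this

theorem norm_proj_le {p : A} (hp : star p = p) (hpp : p * p = p) : ‖p‖ ≤ 1 := by
  have h1 : ‖star p * p‖ = ‖p‖ * ‖p‖ := CStarRing.norm_star_mul_self
  rw [hp, hpp] at h1
  nlinarith [norm_nonneg p]

theorem PIs.norm_le {e v : A} (hv : PIs e v) : ‖v‖ ≤ 1 := by
  have h1 : ‖star v * v‖ ≤ 1 := norm_proj_le (by rw [star_mul, star_star])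
    (by rw [← mul_assoc, hv.pi'])
  rw [CStarRing.norm_star_mul_self] at h1
  nlinarith [norm_nonneg v]

/-- `v'` extends `v` -/
def Ext (v v' : A) : Prop := v' * (star v * v) = v ∧ v * star v * v' = v

theorem Ext.a {e v v' : A} (hv : PIs e v) (h : Ext v v') : star v' * v = star v * v := by
  have h1 := congrArg star h.2
  -- star v' * (v * star v) = star v
  have h2 : star v' * (v * star v) = star v := by
    simpa only [star_mul, star_star, mul_assoc] using h1
  calc star v' * v = star v' * (v * star v) * v := by rw [mul_assoc, hv.pi]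
    _ = star v * v := by rw [h2]

theorem Ext.a' {e v v' : A} (hv : PIs e v) (h : Ext v v') : star v * v' = star v * v := by
  have := congrArg star (h.a hv)
  simpa only [star_mul, star_star] using this

theorem Ext.b {e v v' : A} (hv : PIs e v) (h : Ext v v') : v' * star v = v * star v := by
  calc v' * star v = v' * (star v * v * star v) := by rw [hv.pi']
    _ = v' * (star v * v) * star v := by simp only [mul_assoc]
    _ = v * star v := by rw [h.1]

theorem Ext.b' {e v v' : A} (hv : PIs e v) (h : Ext v v') : v * star v' = v * star v := by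
  have := congrArg star (h.b hv)
  simpa only [star_mul, star_star] using this

theorem Ext.trans {e v v' v'' : A} (hv : PIs e v) (hv' : PIs e v') (h : Ext v v')
    (h' : Ext v' v'') : Ext v v'' := by
  constructor
  · -- star v * v = star v' * v' * (star v * v)
    have h1 : star v * v = star v' * v' * (star v * v) := by
      rw [mul_assoc, h.1, h.a hv]
    calc v'' * (star v * v) = v'' * (star v' * v' * (star v * v)) := by rw [← h1]
      _ = v'' * (star v' * v') * (star v * v) := by simp only [mul_assoc]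
      _ = v' * (star v * v) := by rw [h'.1]
      _ = v := h.1
  · have h1 : v * star v = v * star v * (v' * star v') := by
      rw [← mul_assoc, h.2, h.b' hv]
    calc v * star v * v'' = v * star v * (v' * star v') * v'' := by rw [← h1]
      _ = v * star v * (v' * star v' * v'') := by simp only [mul_assoc]
      _ = v * star v * v' := by rw [h'.2]
      _ = v := h.2

theorem ext_n2 {e v v' : A} (h : TW τ) (hv : PIs e v) (hE : Ext v v') :
    n2 τ (v' - v) ^ 2 = (τ (star v' * v')).re - (τ (star v * v)).re := by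
  rw [h.n2_sq]
  have e1 : star (v' - v) * (v' - v) = star v' * v' - star v * v := by
    rw [star_sub, sub_mul, mul_sub, mul_sub, hE.a hv, hE.a' hv]; abel
  rw [e1, map_sub, Complex.sub_re]

theorem tr_le_one {e v : A} (h : TW τ) (hv : PIs e v) : (τ (star v * v)).re ≤ 1 := by
  rw [← h.n2_sq]
  have h1 := (tau_bounds h).2 v
  have h2 := hv.norm_le
  have h3 := n2_nonneg τ v
  nlinarith

theorem chain_lim {e : A} (h : TW τ) (s : ℕ → A) (hs : ∀ n, PIs e (s n))
    (hE : ∀ n, Ext (s n) (s (n + 1))) : ∃ v, PIs e v ∧ ∀ n, Ext (s n) v := by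
  have hEE : ∀ n m, n ≤ m → Ext (s n) (s m) := by
    intro n m hnm
    induction m, hnm using Nat.le_induction with
    | base => exact ⟨by rw [← mul_assoc, (hs n).pi], (hs n).pi⟩
    | succ m hnm ih => exact ih.trans (hs n) (hs m) (hE m)
  let a : ℕ → ℝ := fun n => (τ (star (s n) * s n)).re
  have ha : ∀ n m, n ≤ m → n2 τ (s m - s n) ^ 2 = a m - a n := fun n m hnm =>
    ext_n2 h (hs n) (hEE n m hnm)
  have hmono : Monotone a := by
    intro n m hnm
    have h1 := ha n m hnm
    nlinarith [sq_nonneg (n2 τ (s m - s n))]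
  have hbdd : BddAbove (Set.range a) := ⟨1, by rintro _ ⟨n, rfl⟩; exact tr_le_one h (hs n)⟩
  have hlim := tendsto_atTop_ciSup hmono hbdd
  have hc := hlim.cauchySeq
  obtain ⟨v, hv1, hv2⟩ := exists_lim h s 1 (fun n => (hs n).norm_le) (by
    intro ε hε
    rw [Metric.cauchySeq_iff] at hc
    obtain ⟨N, hN⟩ := hc (ε ^ 2) (by positivity)
    refine ⟨N, fun m hm n hn => ?_⟩
    have key : ∀ m n, m ≥ N → n ≥ N → n ≤ m → n2 τ (s m - s n) < ε := by
      intro m n hm hn hnm
      have h1 := ha n m hnm
      have h2 := hN m hm n hn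
      rw [Real.dist_eq] at h2
      have h3 := (le_abs_self (a m - a n)).trans_lt h2
      rw [← h1] at h3
      exact lt_of_pow_lt_pow_left₀ 2 hε.le h3
    rcases le_total n m with hnm | hnm
    · exact key m n hm hn hnm
    · rw [n2_sub_comm]; exact key n m hn hm hnm)
  have hL : L2 τ s v := hv2
  have hLs : L2 τ (fun n => star (s n)) (star v) := hL.star h
  have hb : ∀ n, ‖s n‖ ≤ 1 := fun n => (hs n).norm_le
  have hbs : ∀ n, ‖star (s n)‖ ≤ 1 := fun n => by rw [norm_star]; exact hb n
  refine ⟨v, ⟨?_, ?_, ?_, ?_⟩, ?_⟩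
  · have h1 := (L2.const (τ := τ) e).mul h hL ‖e‖ (fun _ => le_rfl)
    exact (h1.congr 0 (fun n _ => (hs n).l)).uniq h hL
  · have h1 := hL.mul h (L2.const (τ := τ) e) 1 hb
    exact (h1.congr 0 (fun n _ => (hs n).r)).uniq h hL
  · have h1 := hL.mul h hL 1 hb
    exact (h1.congr 0 (fun n _ => (hs n).sq)).uniq h (L2.const 0)
  · have h1 := (hL.mul h hLs 1 hb).mul h hL 1 (fun n => by
      calc ‖s n * star (s n)‖ ≤ ‖s n‖ * ‖star (s n)‖ := norm_mul_le _ _
        _ ≤ 1 * 1 := mul_le_mul (hb n) (hbs n) (norm_nonneg _) zero_le_one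
        _ = 1 := one_mul 1)
    exact (h1.congr 0 (fun n _ => (hs n).pi)).uniq h hL
  · intro n
    constructor
    · have h1 := hL.mul h (L2.const (τ := τ) (star (s n) * s n)) 1 hb
      exact (h1.congr n (fun m hm => (hEE n m hm).1)).uniq h (L2.const _)
    · have h1 := (L2.const (τ := τ) (s n * star (s n))).mul h hL ‖s n * star (s n)‖
        (fun _ => le_rfl)
      exact (h1.congr n (fun m hm => (hEE n m hm).2)).uniq h (L2.const _)

/-- every nonzero corner contains a nonzero element of square zero -/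
def SQ (A : Type) [CStarAlgebra A] : Prop :=
  ∀ e : A, star e = e → e * e = e → e ≠ 0 → ∃ w : A, w ≠ 0 ∧ w * w = 0 ∧ e * w = w ∧ w * e = w

theorem isW_top (h : TW τ) : IsW τ (⊤ : StarSubalgebra ℂ A) := fun _ _ => StarSubalgebra.mem_top

theorem exists_PIs (h : TW τ) (hsq : SQ A) (e : A) (he : star e = e) (hee : e * e = e)
    (h0 : e ≠ 0) : ∃ v, v ≠ 0 ∧ PIs e v := by
  obtain ⟨w, hw0, hww, hwl, hwr⟩ := hsq e he hee h0
  obtain ⟨x, hx0, -, hxp, hxc, hxk⟩ := polar h ⊤ (isW_top h) w StarSubalgebra.mem_top hw0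
  have hcl : ∀ g : A, (∀ b, g * (w * b) = 0) → g * x = 0 := by
    intro g hg
    refine h.eq_zero ?_
    refine le_antisymm (le_of_forall_pos_lt_add fun ε hε => ?_) (n2_nonneg _ _)
    rw [zero_add]
    obtain ⟨y, ⟨b, -, rfl⟩, hy⟩ := hxc (ε / (‖g‖ + 1)) (by positivity)
    have e1 : g * x = g * (x - w * b) := by rw [mul_sub, hg b, sub_zero]
    rw [e1]
    have h2 := (n2_mul_le h g (x - w * b)).1
    have h4 : 0 ≤ ‖g‖ := norm_nonneg g
    have h5 : n2 τ (x - w * b) * (‖g‖ + 1) < ε := by
      rwa [lt_div_iff₀ (by positivity)] at hy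
    have h6 := n2_nonneg τ (x - w * b)
    nlinarith
  have hwx : w * x = 0 := hcl w fun b => by rw [← mul_assoc, hww, zero_mul]
  have hxx : x * x = 0 := hxk x hwx
  have hl : e * x = x := by
    have h1 : (1 - e) * x = 0 := hcl (1 - e) fun b => by
      rw [← mul_assoc, sub_mul, hwl, one_mul, sub_self, zero_mul]
    rw [sub_mul, one_mul, sub_eq_zero] at h1
    exact h1.symm
  have hr : x * e = x := by
    have h1 : x * (1 - e) = 0 := hxk (1 - e) (by rw [mul_sub, hwr, mul_one, sub_self])
    rw [mul_sub, mul_one, sub_eq_zero] at h1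
    exact h1.symm
  refine ⟨x, hx0, hl, hr, hxx, ?_⟩
  -- x * star x * x = x
  have h1 : star (x * star x * x - x) * (x * star x * x - x) = 0 := by
    have e1 : star (x * star x * x - x) = star x * x * star x - star x := by
      rw [star_sub]; simp only [star_mul, star_star, mul_assoc]
    rw [e1, sub_mul, mul_sub, mul_sub]
    have a1 : star x * x * star x * (x * star x * x) = star x * x := by
      calc star x * x * star x * (x * star x * x) =
            (star x * x) * (star x * x) * (star x * x) := by simp only [mul_assoc]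
        _ = star x * x := by rw [hxp, hxp]
    have a2 : star x * x * star x * x = star x * x := by rw [mul_assoc, hxp]
    have a3 : star x * (x * star x * x) = star x * x := by
      rw [mul_assoc x, ← mul_assoc, hxp]
    rw [a1, a2, a3]; abel
  have h2 := CStarRing.star_mul_self_eq_zero_iff _ |>.1 h1
  exact sub_eq_zero.1 h2

/-- HALVING -/
theorem half' (h : TW τ) (hsq : SQ A) (e : A) (he : star e = e) (hee : e * e = e) :
    ∃ v, PIs e v ∧ star v * v + v * star v = e := by
  obtain ⟨b, -, hb⟩ := exists_maxl (P := {v : A // PIs e v}) (fun v v' => Ext v.1 v'.1)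
    (fun v => (τ (star v.1 * v.1)).re) 1
    (fun v => ⟨by rw [← mul_assoc, v.2.pi], v.2.pi⟩)
    (fun a b c hab hbc => hab.trans a.2 b.2 hbc)
    (fun v => tr_le_one h v.2)
    (fun a b hab => by
      have := ext_n2 h a.2 hab
      nlinarith [sq_nonneg (n2 τ (b.1 - a.1))])
    (fun s hs => by
      obtain ⟨v, hv1, hv2⟩ := chain_lim h (fun n => (s n).1) (fun n => (s n).2) hs
      exact ⟨⟨v, hv1⟩, hv2⟩)
    ⟨0, ⟨by simp, by simp, by simp, by simp⟩⟩
  obtain ⟨v, hv⟩ := b
  refine ⟨v, hv, ?_⟩
  obtain ⟨f, hf⟩ : ∃ f, f = e - (star v * v + v * star v) := ⟨_, rfl⟩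
  by_contra hne
  have hf0 : f ≠ 0 := by
    intro hf0
    rw [hf0] at hf
    exact hne (sub_eq_zero.1 hf.symm).symm
  have hfs : star f = f := by
    rw [hf, star_sub, star_add, he, star_mul, star_mul, star_star]
  have hvf : v * f = 0 := by
    rw [hf, mul_sub, mul_add, hv.r, ← mul_assoc, hv.pi, ← mul_assoc, hv.sq, zero_mul, add_zero,
      sub_self]
  have hfv : f * v = 0 := by
    rw [hf, sub_mul, add_mul, hv.l, mul_assoc (star v), hv.sq, mul_zero, zero_add, hv.pi, sub_self]
  have hvsf : star v * f = 0 := by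
    have := congrArg star hfv
    rwa [star_mul, hfs, star_zero] at this
  have hfvs : f * star v = 0 := by
    have := congrArg star hvf
    rwa [star_mul, hfs, star_zero] at this
  have hef : e * f = f := by
    rw [hf, mul_sub, mul_add, hee, ← mul_assoc, hv.l' he, ← mul_assoc, hv.l]
  have hfe : f * e = f := by
    have := congrArg star hef
    rwa [star_mul, hfs, he] at this
  have hff : f * f = f := by
    calc f * f = f * e - (f * star v * v + f * v * star v) := by
          nth_rw 2 [hf]
          rw [mul_sub, mul_add]; simp only [mul_assoc]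
      _ = f := by rw [hfvs, hfv, zero_mul, zero_mul, add_zero, sub_zero, hfe]
  obtain ⟨w, hw0, hw⟩ := exists_PIs h hsq f hfs hff hf0
  have hvw : v * w = 0 := by rw [← hw.l, ← mul_assoc, hvf, zero_mul]
  have hwv : w * v = 0 := by rw [← hw.r, mul_assoc, hfv, mul_zero]
  have hvsw : star v * w = 0 := by rw [← hw.l, ← mul_assoc, hvsf, zero_mul]
  have hwvs : w * star v = 0 := by rw [← hw.r, mul_assoc, hfvs, mul_zero]
  have hwsv : star w * v = 0 := by
    have := congrArg star hvsw
    rwa [star_mul, star_star, star_zero] at this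
  have hvws : v * star w = 0 := by
    have := congrArg star hwvs
    rwa [star_mul, star_star, star_zero] at this
  have hnew : PIs e (v + w) := by
    refine ⟨?_, ?_, ?_, ?_⟩
    · rw [mul_add, hv.l, ← hw.l, ← mul_assoc, hef]
    · rw [add_mul, hv.r, ← hw.r, mul_assoc, hfe]
    · rw [add_mul, mul_add, mul_add, hv.sq, hw.sq, hvw, hwv]; simp
    · have e1 : star (v + w) * (v + w) = star v * v + star w * w := by
        rw [star_add, add_mul, mul_add, mul_add, hvsw, hwsv]; simp
      rw [mul_assoc, e1, add_mul, mul_add, mul_add, ← mul_assoc, ← mul_assoc, ← mul_assoc,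
        ← mul_assoc, hv.pi, hw.pi, hvws, hwvs]
      simp
  have hExt : Ext v (v + w) := by
    constructor
    · rw [add_mul, ← mul_assoc, hv.pi, ← mul_assoc, hwvs, zero_mul, add_zero]
    · rw [mul_add, hv.pi, mul_assoc v, hvsw, mul_zero, add_zero]
  have h1 := hb ⟨v + w, hnew⟩ hExt
  have h2 : (τ (star (v + w) * (v + w))).re = (τ (star v * v)).re := h1
  have e1 : star (v + w) * (v + w) = star v * v + star w * w := by
    rw [star_add, add_mul, mul_add, mul_add, hvsw, hwsv]; simp
  rw [e1, map_add, Complex.add_re] at h2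
  have h3 : (τ (star w * w)).re = 0 := by linarith
  apply hw0
  refine h.faithful w (Complex.ext h3 (h.im_zero w))

/-- 4 x 4 matrix units -/
theorem mu_of_sq (h : TW τ) (hsq : SQ A) : ∃ e : Fin 4 → Fin 4 → A, MU e := by
  obtain ⟨v, hv, hv1⟩ := half' h hsq 1 (star_one A) (one_mul 1)
  obtain ⟨p, hp⟩ : ∃ p, p = star v * v := ⟨_, rfl⟩
  have hps : star p = p := by rw [hp, star_mul, star_star]
  have hpp : p * p = p := by rw [hp, ← mul_assoc, hv.pi']
  obtain ⟨u, hu, hu1⟩ := half' h hsq p hps hpp
  have hpv : p * v = 0 := by rw [hp, mul_assoc, hv.sq, mul_zero]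
  have hvp : v * p = v := by rw [hp, ← mul_assoc, hv.pi]
  have hpvs : p * star v = star v := by rw [hp, hv.pi']
  have hvsp : star v * p = 0 := by rw [hp, ← mul_assoc, hv.sq', zero_mul]
  have hus := hu.l' hps
  have hus' := hu.r' hps
  have huv : u * v = 0 := by rw [← hu.r, mul_assoc, hpv, mul_zero]
  have husv : star u * v = 0 := by rw [← hus', mul_assoc, hpv, mul_zero]
  have hvsu : star v * u = 0 := by rw [← hu.l, ← mul_assoc, hvsp, zero_mul]
  have hvsus : star v * star u = 0 := by rw [← hus, ← mul_assoc, hvsp, zero_mul]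
  obtain ⟨f, hf⟩ : ∃ f, f = star u * u := ⟨_, rfl⟩
  have hfs : star f = f := by rw [hf, star_mul, star_star]
  have hff : f * f = f := by rw [hf, ← mul_assoc, hu.pi']
  have huf : u * f = u := by rw [hf, ← mul_assoc, hu.pi]
  have hfu : f * u = 0 := by rw [hf, mul_assoc, hu.sq, mul_zero]
  have hfus : f * star u = star u := by rw [hf, hu.pi']
  have husf : star u * f = 0 := by rw [hf, ← mul_assoc, hu.sq', zero_mul]
  have hfp : f * p = f := by rw [hf, mul_assoc, hu.r]
  have hpf : p * f = f := by rw [hf, ← mul_assoc, hus]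
  have hfv : f * v = 0 := by rw [hf, mul_assoc, huv, mul_zero]
  have hvsf : star v * f = 0 := by rw [hf, ← mul_assoc, hvsus, zero_mul]
  obtain ⟨r, hr⟩ : ∃ r : Fin 4 → A, r = ![f, u, v * f, v * u] := ⟨_, rfl⟩
  have hrf : ∀ i, r i * f = r i := by
    intro i
    rw [hr]
    fin_cases i
    · exact hff
    · exact huf
    · show v * f * f = v * f
      rw [mul_assoc, hff]
    · show v * u * f = v * u
      rw [mul_assoc, huf]
  have hrr : ∀ i j, star (r i) * r j = if i = j then f else 0 := by
    intro i j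
    rw [hr]
    fin_cases i <;> fin_cases j
    · show star f * f = f
      rw [hfs, hff]
    · show star f * u = 0
      rw [hfs, hfu]
    · show star f * (v * f) = 0
      rw [hfs, ← mul_assoc, hfv, zero_mul]
    · show star f * (v * u) = 0
      rw [hfs, ← mul_assoc, hfv, zero_mul]
    · show star u * f = 0
      exact husf
    · show star u * u = f
      exact hf.symm
    · show star u * (v * f) = 0
      rw [← mul_assoc, husv, zero_mul]
    · show star u * (v * u) = 0
      rw [← mul_assoc, husv, zero_mul]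
    · show star (v * f) * f = 0
      rw [star_mul, hfs, mul_assoc, hvsf, mul_zero]
    · show star (v * f) * u = 0
      rw [star_mul, hfs, mul_assoc, hvsu, mul_zero]
    · show star (v * f) * (v * f) = f
      rw [star_mul, hfs, mul_assoc, ← mul_assoc (star v), ← hp, hpf, hff]
    · show star (v * f) * (v * u) = 0
      rw [star_mul, hfs, mul_assoc, ← mul_assoc (star v), ← hp, hu.l, hfu]
    · show star (v * u) * f = 0
      rw [star_mul, mul_assoc, hvsf, mul_zero]
    · show star (v * u) * u = 0
      rw [star_mul, mul_assoc, hvsu, mul_zero]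
    · show star (v * u) * (v * f) = 0
      rw [star_mul, mul_assoc, ← mul_assoc (star v), ← hp, hpf, husf]
    · show star (v * u) * (v * u) = f
      rw [star_mul, mul_assoc, ← mul_assoc (star v), ← hp, hu.l, hf]
  refine ⟨fun i j => r i * star (r j), ?_, ?_, ?_⟩
  · intro i j
    rw [star_mul, star_star]
  · intro i j k l
    rw [mul_assoc, ← mul_assoc (star (r j)), hrr j k]
    split_ifs with hjk
    · rw [← mul_assoc, hrf]
    · rw [zero_mul, mul_zero]
  · rw [Fin.sum_univ_four, hr]
    show f * star f + u * star u + v * f * star (v * f) + v * u * star (v * u) = 1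
    rw [hfs, hff, star_mul, hfs, star_mul]
    have e1 : v * f * (f * star v) = v * f * star v := by
      rw [← mul_assoc, mul_assoc v f f, hff]
    have e2 : v * u * (star u * star v) = v * (u * star u) * star v := by simp only [mul_assoc]
    rw [e1, e2, add_assoc, ← add_mul, ← mul_add, hf, hu1, hvp, ← hv1, hp]

theorem partA_of (hS : ∀ (A : Type) [CStarAlgebra A] (τ : A →ₗ[ℂ] ℂ), TW τ → NoAbA A → SQ A) :
    PartA := fun A _ τ h hab => mu_of_sq h (hS A τ h hab)

end half

theorem oneGen_of_partA (hA : PartA) : OneGenThm := by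
  intro hyp A _ τ h hs hab
  obtain ⟨e, he⟩ := hA A τ h hab
  obtain ⟨B, _, ι, σ, hσ, hB, hBs, hBab, hBc⟩ := partB A τ e h hs hab he
  obtain ⟨y, hy, hgen⟩ := hyp B σ hB hBs hBab
  refine partD A τ e (fun i => ι (y i)) h he (fun i => by rw [← map_star, hy]) ?_ ?_
  · intro k i j
    exact (hBc (ι (y k))).2 ⟨y k, rfl⟩ i j
  · intro x hx
    obtain ⟨b, rfl⟩ := (hBc x).1 hx
    intro ε hε
    obtain ⟨z, hz, hz2⟩ := hgen b ε hε
    refine ⟨ι z, ?_, ?_⟩
    · have h1 : (StarAlgebra.adjoin ℂ (Set.range y)).map ι =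
          StarAlgebra.adjoin ℂ (Set.range fun i => ι (y i)) := by
        rw [StarAlgHom.map_adjoin, ← Set.range_comp]
        rfl
      rw [← h1]
      exact ⟨z, hz, rfl⟩
    · have h2 : n2 τ (ι b - ι z) = n2 σ (b - z) := by
        have h3 : star (ι b - ι z) * (ι b - ι z) = ι (star (b - z) * (b - z)) := by
          rw [map_mul ι, map_star ι, map_sub ι]
        unfold n2
        rw [hσ, h3]
      rw [h2]
      exact hz2

theorem oneGen_of (hS : ∀ (A : Type) [CStarAlgebra A] (τ : A →ₗ[ℂ] ℂ), TW τ → NoAbA A → SQ A) :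
    OneGenThm := oneGen_of_partA (partA_of hS)

end Pool.Agent.H594R3.GEN
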