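import Mathlib
import Pool.Agent.H594R3.GEN.O5
import Pool.Agent.H649G.SQZ

/-!
ROOM GEN, block 4: `OneGenThm`, `Halving`, `PartA` without hypotheses.
-/

set_option autoImplicit false

noncomputable section

namespace Pool.Agent.H594R3.GEN

open Pool.Agent.H467F Pool.Agent.H735G

theorem sq_of_noAb (A : Type) [CStarAlgebra A] (τ : A →ₗ[ℂ] ℂ) (h : TW τ) (hab : NoAbA A) :
    SQ A := by
  intro e he hee h0
  obtain ⟨x, y, hxy⟩ := hab e he hee h0
  exact Pool.Agent.H649G.sqz h e x y he hee hxy

/-- Every projection of a tracial von Neumann algebra without abelian projections is the sum of two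
equivalent projections. -/
theorem halving : Halving := by
  intro A _ τ h hab e he hee
  obtain ⟨v, hv, hv1⟩ := half' h (sq_of_noAb A τ h hab) e he hee
  exact ⟨v, hv1, hv.sq⟩

theorem partA : PartA := partA_of sq_of_noAb

/-- BLOCK 4 of ROOM GEN. -/
theorem oneGen : OneGenThm := oneGen_of sq_of_noAb

/-- A pair of anticommuting symmetries. -/
theorem exists_pair {A : Type} [CStarAlgebra A] {τ : A →ₗ[ℂ] ℂ} (h : TW τ) (hab : NoAbA A) :
    ∃ s t : A, star s = s ∧ star t = t ∧ s * s = 1 ∧ t * t = 1 ∧ s * t = -(t * s) := by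
  obtain ⟨v, hv, hv1⟩ := half' h (sq_of_noAb A τ h hab) 1 (star_one A) (one_mul 1)
  have a1 : v * star v * (v * star v) = v * star v := by rw [← mul_assoc, hv.pi]
  have a2 : star v * v * (star v * v) = star v * v := by rw [← mul_assoc, hv.pi']
  have a3 : v * star v * (star v * v) = 0 := by
    rw [mul_assoc, ← mul_assoc (star v), hv.sq', zero_mul, mul_zero]
  have a4 : star v * v * (v * star v) = 0 := by
    rw [mul_assoc, ← mul_assoc v, hv.sq, zero_mul, mul_zero]
  have b1 : v * star v * v = v := hv.pi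
  have b2 : v * star v * star v = 0 := by rw [mul_assoc, hv.sq', mul_zero]
  have b3 : star v * v * v = 0 := by rw [mul_assoc, hv.sq, mul_zero]
  have b4 : star v * v * star v = star v := hv.pi'
  have c1 : v * (v * star v) = 0 := by rw [← mul_assoc, hv.sq, zero_mul]
  have c2 : v * (star v * v) = v := by rw [← mul_assoc, hv.pi]
  have c3 : star v * (v * star v) = star v := by rw [← mul_assoc, hv.pi']
  have c4 : star v * (star v * v) = 0 := by rw [← mul_assoc, hv.sq', zero_mul]
  refine ⟨v * star v - star v * v, v + star v, ?_, ?_, ?_, ?_, ?_⟩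
  · rw [star_sub]; simp only [star_mul, star_star]
  · rw [star_add, star_star, add_comm]
  · rw [sub_mul, mul_sub, mul_sub, a1, a2, a3, a4, ← hv1]; abel
  · rw [add_mul, mul_add, mul_add, hv.sq, hv.sq', ← hv1]; abel
  · rw [sub_mul, mul_add, mul_add, b1, b2, b3, b4, add_mul, mul_sub, mul_sub, c1, c2, c3, c4]
    abel

end Pool.Agent.H594R3.GEN
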