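import Mathlib

/-!
Generator problem (MP_c8a987_an), one generator, part 1:
a sequence of commuting symmetries is generated by one self-adjoint operator.
-/

set_option autoImplicit false

namespace Pool.Agent.H594R3.GEN

open scoped BigOperators

section Key

variable {A : Type*} [NormedRing A] [NormedAlgebra ℂ A]

/-- If `t` commutes with `s + r` where `s ^ 2 = 1`, `r` commutes with `s` and `‖r‖ ≤ 1 / 2`, then
`t` commutes with `s`. -/
theorem commute_of_commute_add {s r t : A} (hs : s * s = 1) (hr : Commute s r)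
    (hn : ‖r‖ ≤ 1 / 2) (ht : Commute t (s + r)) : Commute t s := by
  have hsa : Commute s (s + r) := (Commute.refl s).add_right hr
  have aux : ∀ x : A, s * x = x → x * s = -x → Commute (s + r) x → x = 0 := by
    intro x h1 h2 h3
    have h4 : (2 : ℂ) • x = x * r - r * x := by
      have h5 : (s + r) * x = x * (s + r) := h3
      rw [add_mul, mul_add, h1, h2] at h5
      have h6 : x + x = x * r - r * x := by
        have : x + r * x + x = -x + x * r + x := by rw [h5]
        have e1 : x + r * x + x - r * x = x + x := by abel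
        have e2 : -x + x * r + x - r * x = x * r - r * x := by abel
        rw [← e1, ← e2, this]
      rw [two_smul]
      exact h6
    have h7 : 2 * ‖x‖ ≤ ‖x‖ := by
      calc 2 * ‖x‖ = ‖(2 : ℂ) • x‖ := by rw [norm_smul]; norm_num
        _ = ‖x * r - r * x‖ := by rw [h4]
        _ ≤ ‖x * r‖ + ‖r * x‖ := norm_sub_le _ _
        _ ≤ ‖x‖ * ‖r‖ + ‖r‖ * ‖x‖ := add_le_add (norm_mul_le _ _) (norm_mul_le _ _)
        _ ≤ ‖x‖ := by nlinarith [norm_nonneg x, norm_nonneg r]
    have h8 : ‖x‖ = 0 := by nlinarith [norm_nonneg x]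
    exact norm_eq_zero.mp h8
  have hcomm : ∀ ε δ : ℂ, Commute (s + r) ((1 + ε • s) * t * (1 + δ • s)) := by
    intro ε δ
    have c1 : Commute (s + r) (1 + ε • s) :=
      (Commute.one_right _).add_right (hsa.symm.smul_right ε)
    have c2 : Commute (s + r) (1 + δ • s) :=
      (Commute.one_right _).add_right (hsa.symm.smul_right δ)
    exact (c1.mul_right ht.symm).mul_right c2
  have h1 : (1 + s) * t * (1 - s) = 0 := by
    apply aux
    · rw [← mul_assoc, ← mul_assoc, mul_add, hs, mul_one, add_comm s 1]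
    · rw [mul_assoc, sub_mul, hs, one_mul, ← neg_sub, mul_neg]
    · have := hcomm 1 (-1)
      simpa [sub_eq_add_neg] using this
  have h2 : (1 - s) * t * (1 + s) = 0 := by
    have h2' : -((1 - s) * t * (1 + s)) = 0 := by
      have aux' : ∀ x : A, s * x = -x → x * s = x → Commute (s + r) x → x = 0 := by
        intro x h1 h2 h3
        have h4 : (2 : ℂ) • x = r * x - x * r := by
          have h5 : (s + r) * x = x * (s + r) := h3
          rw [add_mul, mul_add, h1, h2] at h5
          have h6 : x + x = r * x - x * r := by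
            have : -x + r * x + x - x * r = x + x * r + x - x * r := by rw [h5]
            have e1 : -x + r * x + x - x * r = r * x - x * r := by abel
            have e2 : x + x * r + x - x * r = x + x := by abel
            rw [← e1, ← e2, this]
          rw [two_smul]
          exact h6
        have h7 : 2 * ‖x‖ ≤ ‖x‖ := by
          calc 2 * ‖x‖ = ‖(2 : ℂ) • x‖ := by rw [norm_smul]; norm_num
            _ = ‖r * x - x * r‖ := by rw [h4]
            _ ≤ ‖r * x‖ + ‖x * r‖ := norm_sub_le _ _
            _ ≤ ‖r‖ * ‖x‖ + ‖x‖ * ‖r‖ := add_le_add (norm_mul_le _ _) (norm_mul_le _ _)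
            _ ≤ ‖x‖ := by nlinarith [norm_nonneg x, norm_nonneg r]
        have h8 : ‖x‖ = 0 := by nlinarith [norm_nonneg x]
        exact norm_eq_zero.mp h8
      rw [neg_eq_zero]
      apply aux'
      · rw [← mul_assoc, ← mul_assoc, mul_sub, hs, mul_one, ← neg_sub, neg_mul, neg_mul]
      · rw [mul_assoc, add_mul, hs, one_mul, add_comm s 1]
      · have := hcomm (-1) 1
        simpa [sub_eq_add_neg] using this
    simpa using h2'
  have h3 : (2 : ℂ) • (s * t - t * s) = 0 := by
    have e : (2 : ℂ) • (s * t - t * s) = (1 + s) * t * (1 - s) - (1 - s) * t * (1 + s) := by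
      rw [two_smul]; noncomm_ring
    rw [e, h1, h2, sub_zero]
  have h4 : s * t - t * s = 0 := by
    rcases smul_eq_zero.mp h3 with h | h
    · norm_num at h
    · exact h
  exact (sub_eq_zero.mp h4).symm

end Key

section Sym

variable {H : Type*} [NormedAddCommGroup H] [InnerProductSpace ℂ H] [CompleteSpace H]

/-- a sequence of commuting symmetries -/
structure IsSymSeq (s : ℕ → (H →L[ℂ] H)) : Prop where
  sa : ∀ n, star (s n) = s n
  sq : ∀ n, s n * s n = 1
  comm : ∀ m n, Commute (s m) (s n)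

/-- `∑ 3⁻ⁿ s n` -/
noncomputable def symSum (s : ℕ → (H →L[ℂ] H)) : H →L[ℂ] H := ∑' n, ((1 / 3 : ℝ) ^ n : ℂ) • s n

theorem IsSymSeq.shift {s : ℕ → (H →L[ℂ] H)} (h : IsSymSeq s) :
    IsSymSeq (fun n => s (n + 1)) :=
  ⟨fun n => h.sa _, fun n => h.sq _, fun m n => h.comm _ _⟩

theorem IsSymSeq.norm_le {s : ℕ → (H →L[ℂ] H)} (h : IsSymSeq s) (n : ℕ) : ‖s n‖ ≤ 1 := by
  have h1 : ‖s n‖ * ‖s n‖ ≤ 1 := by
    rw [← CStarRing.norm_star_mul_self, h.sa, h.sq]
    exact ContinuousLinearMap.norm_id_le
  nlinarith [norm_nonneg (s n)]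

theorem IsSymSeq.norm_term {s : ℕ → (H →L[ℂ] H)} (h : IsSymSeq s) (n : ℕ) :
    ‖((1 / 3 : ℝ) ^ n : ℂ) • s n‖ ≤ (1 / 3 : ℝ) ^ n := by
  rw [norm_smul]
  have : ‖(((1 / 3 : ℝ) : ℂ) ^ n)‖ = (1 / 3 : ℝ) ^ n := by
    rw [norm_pow, Complex.norm_real]; norm_num
  rw [this]
  have := h.norm_le n
  have h2 : (0 : ℝ) ≤ (1 / 3 : ℝ) ^ n := by positivity
  nlinarith

theorem IsSymSeq.summable {s : ℕ → (H →L[ℂ] H)} (h : IsSymSeq s) :
    Summable fun n => ((1 / 3 : ℝ) ^ n : ℂ) • s n :=
  Summable.of_norm_bounded (summable_geometric_of_lt_one (by norm_num) (by norm_num))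
    h.norm_term

theorem IsSymSeq.norm_sum_le {s : ℕ → (H →L[ℂ] H)} (h : IsSymSeq s) : ‖symSum s‖ ≤ 3 / 2 := by
  have := tsum_of_norm_bounded
    (hasSum_geometric_of_lt_one (by norm_num) (by norm_num : (1 / 3 : ℝ) < 1)) h.norm_term
  refine this.trans ?_
  norm_num

theorem IsSymSeq.sum_eq {s : ℕ → (H →L[ℂ] H)} (h : IsSymSeq s) :
    symSum s = s 0 + ((1 / 3 : ℝ) : ℂ) • symSum (fun n => s (n + 1)) := by
  unfold symSum
  rw [h.summable.tsum_eq_zero_add]
  congr 1
  · simp
  · rw [← tsum_const_smul'']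
    apply tsum_congr
    intro n
    rw [smul_smul, pow_succ']

theorem IsSymSeq.commute_sum {s : ℕ → (H →L[ℂ] H)} (h : IsSymSeq s) {t : H →L[ℂ] H}
    (ht : ∀ n, Commute t (s n)) : Commute t (symSum s) := by
  have h1 : t * symSum s = symSum s * t := by
    unfold symSum
    rw [← h.summable.tsum_mul_left, ← h.summable.tsum_mul_right]
    apply tsum_congr
    intro n
    exact ((ht n).smul_right _)
  exact h1

theorem IsSymSeq.commute_of_sum {s : ℕ → (H →L[ℂ] H)} (h : IsSymSeq s) {t : H →L[ℂ] H}
    (ht : Commute t (symSum s)) (n : ℕ) : Commute t (s n) := by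
  induction n generalizing s with
  | zero =>
    rw [h.sum_eq] at ht
    refine commute_of_commute_add (h.sq 0) ?_ ?_ ht
    · exact (h.shift.commute_sum (fun n => h.comm 0 (n + 1))).smul_right _
    · rw [norm_smul]
      have := h.shift.norm_sum_le
      have h3 : ‖((1 / 3 : ℝ) : ℂ)‖ = 1 / 3 := by rw [Complex.norm_real]; norm_num
      rw [h3]; linarith
  | succ n ih =>
    have h0 : Commute t (s 0) := by
      rw [h.sum_eq] at ht
      refine commute_of_commute_add (h.sq 0) ?_ ?_ ht
      · exact (h.shift.commute_sum (fun n => h.comm 0 (n + 1))).smul_right _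
      · rw [norm_smul]
        have := h.shift.norm_sum_le
        have h3 : ‖((1 / 3 : ℝ) : ℂ)‖ = 1 / 3 := by rw [Complex.norm_real]; norm_num
        rw [h3]; linarith
    have h1 : Commute t (symSum fun n => s (n + 1)) := by
      have e : symSum (fun n => s (n + 1)) = (3 : ℂ) • (symSum s - s 0) := by
        rw [h.sum_eq, add_sub_cancel_left, smul_smul]
        norm_num
      rw [e]
      exact (ht.sub_right h0).smul_right _
    exact ih h.shift h1

theorem IsSymSeq.star_sum {s : ℕ → (H →L[ℂ] H)} (h : IsSymSeq s) :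
    star (symSum s) = symSum s := by
  unfold symSum
  rw [tsum_star]
  apply tsum_congr
  intro n
  rw [star_smul, h.sa]
  congr 1
  simp

/-- the commutant of the sum is the commutant of the sequence -/
theorem IsSymSeq.centralizer_sum {s : ℕ → (H →L[ℂ] H)} (h : IsSymSeq s) :
    Set.centralizer {symSum s} = Set.centralizer (Set.range s) := by
  ext t
  rw [Set.mem_centralizer_iff, Set.mem_centralizer_iff]
  constructor
  · intro ht x hx
    obtain ⟨n, rfl⟩ := hx
    exact (h.commute_of_sum (t := t) (ht _ rfl).symm n).symm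
  · intro ht x hx
    rw [Set.mem_singleton_iff] at hx
    subst hx
    exact (h.commute_sum (t := t) (fun n => (ht _ ⟨n, rfl⟩).symm)).symm

end Sym

end Pool.Agent.H594R3.GEN
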