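import Pool.Agent.H594R3.GEN.G1

/-!
Generator problem (MP_c8a987_an), one generator, part 2: the matrix trick.
-/

set_option autoImplicit false

namespace Pool.Agent.H594R3.GEN

open scoped BigOperators

section

variable {H : Type*} [NormedAddCommGroup H] [InnerProductSpace ℂ H] [CompleteSpace H]

/-- matrix units -/
structure IsMU {ι : Type*} [Fintype ι] [DecidableEq ι] (e : ι → ι → (H →L[ℂ] H)) : Prop where
  mul : ∀ i j k l, e i j * e k l = if j = k then e i l else 0
  star : ∀ i j, star (e i j) = e j i
  one : ∑ i, e i i = 1

namespace IsMU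

variable {ι : Type*} [Fintype ι] [DecidableEq ι] {e : ι → ι → (H →L[ℂ] H)}

theorem mul_same (h : IsMU e) (i j l : ι) : e i j * e j l = e i l := by simp [h.mul]

theorem mul_ne (h : IsMU e) {j k : ι} (hjk : j ≠ k) (i l : ι) : e i j * e k l = 0 := by
  simp [h.mul, hjk]

/-- an operator commuting with all matrix units and with `y i j` commutes with the sum -/
theorem expand (h : IsMU e) (y : H →L[ℂ] H) :
    y = ∑ i, ∑ j, (∑ k, e k i * y * e j k) * e i j := by
  have h1 : ∀ i j, (∑ k, e k i * y * e j k) * e i j = e i i * y * e j j := by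
    intro i j
    rw [Finset.sum_mul, Finset.sum_eq_single i]
    · rw [mul_assoc, h.mul_same]
    · intro k _ hk
      rw [mul_assoc, h.mul_ne hk, mul_zero]
    · intro hi; exact absurd (Finset.mem_univ i) hi
  calc y = (∑ i, e i i) * y * (∑ j, e j j) := by rw [h.one]; simp
    _ = ∑ i, ∑ j, e i i * y * e j j := by
        rw [Finset.sum_mul, Finset.sum_mul]
        apply Finset.sum_congr rfl
        intro i _
        rw [Finset.mul_sum]
    _ = _ := by
        apply Finset.sum_congr rfl
        intro i _
        apply Finset.sum_congr rfl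
        intro j _
        rw [h1]

theorem commute_entry (h : IsMU e) (y : H →L[ℂ] H) (i j a b : ι) :
    Commute (∑ k, e k i * y * e j k) (e a b) := by
  change (∑ k, e k i * y * e j k) * e a b = e a b * (∑ k, e k i * y * e j k)
  rw [Finset.sum_mul, Finset.mul_sum, Finset.sum_eq_single a, Finset.sum_eq_single b]
  · rw [mul_assoc, h.mul_same, ← mul_assoc, ← mul_assoc, h.mul_same]
  · intro k _ hk
    rw [← mul_assoc, ← mul_assoc, h.mul_ne (Ne.symm hk), zero_mul, zero_mul]
  · intro hi; exact absurd (Finset.mem_univ _) hi
  · intro k _ hk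
    rw [mul_assoc, h.mul_ne hk, mul_zero]
  · intro hi; exact absurd (Finset.mem_univ _) hi

end IsMU

/-- the first self-adjoint generator -/
noncomputable def genA {ι : Type*} [Fintype ι] (e : ι → ι → (H →L[ℂ] H)) (lam : ι → ℝ) :
    H →L[ℂ] H := ∑ i, (lam i : ℂ) • e i i

/-- the second self-adjoint generator -/
noncomputable def genB {ι : Type*} [Fintype ι] [DecidableEq ι] (e : ι → ι → (H →L[ℂ] H))
    (o : ι) (x : ι → (H →L[ℂ] H)) : H →L[ℂ] H :=
  ∑ i, x i * e i i + ∑ i, (if i = o then 0 else e o i + e i o)

variable {ι : Type*} [Fintype ι] [DecidableEq ι] {e : ι → ι → (H →L[ℂ] H)}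

theorem star_genA (h : IsMU e) (lam : ι → ℝ) : star (genA e lam) = genA e lam := by
  unfold genA
  rw [star_sum]
  apply Finset.sum_congr rfl
  intro i _
  rw [star_smul, h.star]
  simp

theorem star_genB (h : IsMU e) (o : ι) (x : ι → (H →L[ℂ] H)) (hx : ∀ i, star (x i) = x i)
    (hxe : ∀ i j k, Commute (x i) (e j k)) : star (genB e o x) = genB e o x := by
  unfold genB
  rw [star_add, star_sum, star_sum]
  congr 1
  · apply Finset.sum_congr rfl
    intro i _
    rw [star_mul, h.star, hx]
    exact (hxe i i i).symm
  · apply Finset.sum_congr rfl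
    intro i _
    split_ifs with hi
    · simp
    · rw [star_add, h.star, h.star, add_comm]

theorem genA_mul (h : IsMU e) (lam : ι → ℝ) (i j : ι) :
    genA e lam * e i j = (lam i : ℂ) • e i j := by
  unfold genA
  rw [Finset.sum_mul, Finset.sum_eq_single i]
  · rw [smul_mul_assoc, h.mul_same]
  · intro k _ hk
    rw [smul_mul_assoc, h.mul_ne hk, smul_zero]
  · intro hi; exact absurd (Finset.mem_univ _) hi

theorem mul_genA (h : IsMU e) (lam : ι → ℝ) (i j : ι) :
    e i j * genA e lam = (lam j : ℂ) • e i j := by
  unfold genA
  rw [Finset.mul_sum, Finset.sum_eq_single j]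
  · rw [mul_smul_comm, h.mul_same]
  · intro k _ hk
    rw [mul_smul_comm, h.mul_ne (Ne.symm hk), smul_zero]
  · intro hi; exact absurd (Finset.mem_univ _) hi

theorem diag_genB (h : IsMU e) (o : ι) (x : ι → (H →L[ℂ] H))
    (hxe : ∀ i j k, Commute (x i) (e j k)) (i : ι) :
    e i i * genB e o x * e i i = x i * e i i := by
  unfold genB
  rw [mul_add, add_mul]
  have h1 : e i i * (∑ k, x k * e k k) * e i i = x i * e i i := by
    rw [Finset.mul_sum, Finset.sum_mul, Finset.sum_eq_single i]
    · rw [← mul_assoc, ← (hxe i i i).eq, mul_assoc (x i), h.mul_same, mul_assoc, h.mul_same]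
    · intro k _ hk
      rw [mul_assoc, mul_assoc, h.mul_ne hk, mul_zero, mul_zero]
    · intro hi; exact absurd (Finset.mem_univ _) hi
  have h2 : e i i * (∑ k, (if k = o then 0 else e o k + e k o)) * e i i = 0 := by
    rw [Finset.mul_sum, Finset.sum_mul]
    apply Finset.sum_eq_zero
    intro k _
    split_ifs with hk
    · simp
    · rw [mul_add, add_mul]
      have e1 : e i i * e o k * e i i = 0 := by
        rw [h.mul]
        split_ifs with h1
        · rw [h.mul, if_neg]
          rintro rfl; exact hk h1
        · rw [zero_mul]
      have e2 : e i i * e k o * e i i = 0 := by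
        rw [h.mul]
        split_ifs with h1
        · rw [h.mul, if_neg]
          rintro rfl; exact hk h1.symm
        · rw [zero_mul]
      rw [e1, e2, add_zero]
  rw [h1, h2, add_zero]

theorem off_genB (h : IsMU e) (o : ι) (x : ι → (H →L[ℂ] H))
    (hxe : ∀ i j k, Commute (x i) (e j k)) (i : ι) (hi : i ≠ o) :
    e o o * genB e o x * e i i = e o i := by
  unfold genB
  rw [mul_add, add_mul]
  have h1 : e o o * (∑ k, x k * e k k) * e i i = 0 := by
    rw [Finset.mul_sum, Finset.sum_mul]
    apply Finset.sum_eq_zero
    intro k _
    rw [← mul_assoc, ← (hxe k o o).eq, mul_assoc (x k), mul_assoc (x k), h.mul]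
    split_ifs with hk
    · rw [h.mul, if_neg, mul_zero]
      rintro rfl; exact hi hk.symm
    · rw [zero_mul, mul_zero]
  have h2 : e o o * (∑ k, (if k = o then 0 else e o k + e k o)) * e i i = e o i := by
    rw [Finset.mul_sum, Finset.sum_mul, Finset.sum_eq_single i]
    · rw [if_neg hi, mul_add, add_mul, h.mul_same, h.mul_same, h.mul_ne (Ne.symm hi), zero_mul,
        add_zero]
    · intro k _ hk
      split_ifs with hko
      · simp
      · rw [mul_add, add_mul, h.mul_same, h.mul_ne hk, mul_assoc, h.mul_ne (Ne.symm hi), mul_zero,
          add_zero]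
    · intro hi; exact absurd (Finset.mem_univ _) hi
  rw [h1, h2, zero_add]

/-- The matrix trick: an operator commuting with `genA` and `genB` commutes with all matrix units
and all `x i`. -/
theorem commute_of_gen (h : IsMU e) (lam : ι → ℝ) (hlam : Function.Injective lam) (o : ι)
    (x : ι → (H →L[ℂ] H)) (hxe : ∀ i j k, Commute (x i) (e j k)) {t : H →L[ℂ] H}
    (hA : Commute t (genA e lam)) (hB : Commute t (genB e o x)) :
    (∀ i j, Commute t (e i j)) ∧ ∀ i, Commute t (x i) := by
  have h1 : ∀ i j, i ≠ j → e i i * t * e j j = 0 := by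
    intro i j hij
    have e1 : (lam i : ℂ) • (e i i * t * e j j) = (lam j : ℂ) • (e i i * t * e j j) := by
      calc (lam i : ℂ) • (e i i * t * e j j) = e i i * genA e lam * t * e j j := by
            rw [mul_genA h, smul_mul_assoc, smul_mul_assoc]
        _ = e i i * (t * genA e lam) * e j j := by rw [mul_assoc (e i i), ← hA.eq]
        _ = (lam j : ℂ) • (e i i * t * e j j) := by
            rw [mul_assoc, mul_assoc t, genA_mul h, mul_smul_comm, mul_smul_comm, mul_assoc]
    have e2 : ((lam i : ℂ) - (lam j : ℂ)) • (e i i * t * e j j) = 0 := by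
      rw [sub_smul, e1, sub_self]
    rcases smul_eq_zero.mp e2 with h3 | h3
    · exfalso
      apply hij
      apply hlam
      have := sub_eq_zero.mp h3
      exact_mod_cast this
    · exact h3
  have hd : ∀ j, Commute t (e j j) := by
    intro j
    have e1 : t * e j j = e j j * t * e j j := by
      calc t * e j j = (∑ i, e i i) * (t * e j j) := by rw [h.one, one_mul]
        _ = e j j * t * e j j := by
          rw [Finset.sum_mul, Finset.sum_eq_single j]
          · rw [mul_assoc]
          · intro i _ hi
            rw [← mul_assoc]; exact h1 i j hi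
          · intro hi; exact absurd (Finset.mem_univ _) hi
    have e2 : e j j * t = e j j * t * e j j := by
      calc e j j * t = (e j j * t) * (∑ i, e i i) := by rw [h.one, mul_one]
        _ = e j j * t * e j j := by
          rw [Finset.mul_sum, Finset.sum_eq_single j]
          · intro i _ hi
            exact h1 j i (Ne.symm hi)
          · intro hi; exact absurd (Finset.mem_univ _) hi
    exact e1.trans e2.symm
  have ho : ∀ i, Commute t (e o i) := by
    intro i
    by_cases hi : i = o
    · subst hi; exact hd i
    · rw [← off_genB h o x hxe i hi]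
      exact ((hd o).mul_right hB).mul_right (hd i)
  have hio : ∀ i, Commute t (e i o) := by
    intro i
    by_cases hi : i = o
    · subst hi; exact hd i
    · have e1 : e i i * genB e o x * e o o = e i o := by
        unfold genB
        rw [mul_add, add_mul]
        have h1 : e i i * (∑ k, x k * e k k) * e o o = 0 := by
          rw [Finset.mul_sum, Finset.sum_mul]
          apply Finset.sum_eq_zero
          intro k _
          rw [← mul_assoc, ← (hxe k i i).eq, mul_assoc (x k), mul_assoc (x k), h.mul]
          split_ifs with hk
          · rw [h.mul, if_neg, mul_zero]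
            rintro rfl; exact hi hk
          · rw [zero_mul, mul_zero]
        have h2 : e i i * (∑ k, (if k = o then 0 else e o k + e k o)) * e o o = e i o := by
          rw [Finset.mul_sum, Finset.sum_mul, Finset.sum_eq_single i]
          · rw [if_neg hi, mul_add, add_mul, h.mul_same, h.mul_same, h.mul_ne hi, zero_mul,
              zero_add]
          · intro k _ hk
            split_ifs with hko
            · simp
            · rw [mul_add, add_mul, h.mul_ne hi, h.mul_ne (Ne.symm hk), zero_mul, add_zero]
          · intro hi; exact absurd (Finset.mem_univ _) hi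
        rw [h1, h2, zero_add]
      rw [← e1]
      exact ((hd i).mul_right hB).mul_right (hd o)
  have he : ∀ i j, Commute t (e i j) := by
    intro i j
    rw [← h.mul_same i o j]
    exact (hio i).mul_right (ho j)
  refine ⟨he, fun i => ?_⟩
  have e1 : x i = ∑ k, e k i * (e i i * genB e o x * e i i) * e i k := by
    have e2 : ∀ k, e k i * (e i i * genB e o x * e i i) * e i k = x i * e k k := by
      intro k
      rw [diag_genB h o x hxe, ← mul_assoc, ← (hxe i k i).eq, mul_assoc (x i), h.mul_same,
        mul_assoc, h.mul_same]
    simp only [e2]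
    rw [← Finset.mul_sum, h.one, mul_one]
  rw [e1]
  apply Commute.sum_right
  intro k _
  exact ((he k i).mul_right (((hd i).mul_right hB).mul_right (hd i))).mul_right (he i k)

/-- The matrix trick for the operator `T = A + i B`. -/
theorem matrix_trick (h : IsMU e) (lam : ι → ℝ) (hlam : Function.Injective lam) (o : ι)
    (x : ι → (H →L[ℂ] H)) (hx : ∀ i, star (x i) = x i)
    (hxe : ∀ i j k, Commute (x i) (e j k)) :
    ∃ T : H →L[ℂ] H, Set.centralizer ({T, star T} : Set (H →L[ℂ] H))
      = Set.centralizer ((Set.range fun p : ι × ι => e p.1 p.2) ∪ Set.range x) := by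
  set A := genA e lam with hA
  set B := genB e o x with hB
  have hAs : star A = A := star_genA h lam
  have hBs : star B = B := star_genB h o x hx hxe
  refine ⟨A + Complex.I • B, ?_⟩
  have hT : star (A + Complex.I • B) = A - Complex.I • B := by
    rw [star_add, star_smul, hAs, hBs]
    simp [sub_eq_add_neg]
  ext t
  simp only [Set.mem_centralizer_iff, Set.mem_union, Set.mem_range, Set.mem_insert_iff,
    Set.mem_singleton_iff]
  constructor
  · intro ht
    have h1 : Commute t (A + Complex.I • B) := (ht _ (Or.inl rfl)).symm
    have h2 : Commute t (A - Complex.I • B) := by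
      have := (ht _ (Or.inr rfl)).symm
      rwa [hT] at this
    have cA : Commute t A := by
      have h3 := h1.add_right h2
      have e1 : A + Complex.I • B + (A - Complex.I • B) = (2 : ℂ) • A := by
        rw [two_smul]; abel
      rw [e1] at h3
      have h4 := h3.smul_right ((1 / 2 : ℂ))
      rw [smul_smul] at h4
      norm_num at h4
      exact h4
    have cB : Commute t B := by
      have h3 := h1.sub_right h2
      have e1 : A + Complex.I • B - (A - Complex.I • B) = (2 * Complex.I) • B := by
        rw [mul_smul, two_smul]; abel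
      rw [e1] at h3
      have h4 := h3.smul_right ((2 * Complex.I)⁻¹)
      rw [smul_smul, inv_mul_cancel₀ (by simp), one_smul] at h4
      exact h4
    obtain ⟨he, hxx⟩ := commute_of_gen h lam hlam o x hxe cA cB
    rintro y (⟨p, rfl⟩ | ⟨i, rfl⟩)
    · exact (he p.1 p.2).symm
    · exact (hxx i).symm
  · intro ht
    have he : ∀ i j, Commute t (e i j) := fun i j => (ht _ (Or.inl ⟨(i, j), rfl⟩)).symm
    have hxx : ∀ i, Commute t (x i) := fun i => (ht _ (Or.inr ⟨i, rfl⟩)).symm
    have cA : Commute t A := by
      rw [hA]; unfold genA
      exact Commute.sum_right _ _ _ fun i _ => (he i i).smul_right _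
    have cB : Commute t B := by
      rw [hB]; unfold genB
      refine (Commute.sum_right _ _ _ fun i _ => (hxx i).mul_right (he i i)).add_right
        (Commute.sum_right _ _ _ fun i _ => ?_)
      split_ifs
      · exact Commute.zero_right _
      · exact (he o i).add_right (he i o)
    rintro y (rfl | rfl)
    · exact (cA.add_right (cB.smul_right _)).symm
    · rw [hT]
      exact (cA.sub_right (cB.smul_right _)).symm

end

end Pool.Agent.H594R3.GEN
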