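import Pool.Agent.H594R3.GEN.G2

/-!
Generator problem (MP_c8a987_an), one generator, part 3: qubits, centre and one more operator.
-/

set_option autoImplicit false

namespace Pool.Agent.H594R3.GEN

open scoped BigOperators

section

variable {H : Type*} [NormedAddCommGroup H] [InnerProductSpace ℂ H] [CompleteSpace H]

/-- one qubit: two anticommuting symmetries -/
structure IsQubit (c d : H →L[ℂ] H) : Prop where
  csa : star c = c
  dsa : star d = d
  csq : c * c = 1
  dsq : d * d = 1
  anti : d * c = -(c * d)

/-- the spectral projections of a symmetry -/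
noncomputable def sp (c : H →L[ℂ] H) (i : Fin 2) : H →L[ℂ] H :=
  (1 / 2 : ℂ) • (1 + (if i = 0 then (1 : ℂ) else -1) • c)

/-- matrix units of a qubit -/
noncomputable def qmu (c d : H →L[ℂ] H) (i j : Fin 2) : H →L[ℂ] H :=
  if i = j then sp c i else sp c i * d

variable {c d : H →L[ℂ] H}

theorem IsQubit.sp_mul_self (h : IsQubit c d) (i : Fin 2) : sp c i * sp c i = sp c i := by
  unfold sp
  rw [smul_mul_smul_comm, mul_add, add_mul, add_mul, smul_mul_smul_comm, h.csq]
  have e1 : (if i = 0 then (1 : ℂ) else -1) * (if i = 0 then (1 : ℂ) else -1) = 1 := by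
    split_ifs <;> norm_num
  rw [e1, one_smul, one_mul, one_mul, mul_one]
  have e2 : (1 : H →L[ℂ] H) + (if i = 0 then (1 : ℂ) else -1) • c
      + ((if i = 0 then (1 : ℂ) else -1) • c + 1)
      = (2 : ℂ) • (1 + (if i = 0 then (1 : ℂ) else -1) • c) := by
    rw [two_smul]; abel
  rw [e2, smul_smul]
  norm_num

theorem IsQubit.sp_mul_ne (h : IsQubit c d) {i j : Fin 2} (hij : i ≠ j) :
    sp c i * sp c j = 0 := by
  unfold sp
  rw [smul_mul_smul_comm, mul_add, add_mul, add_mul, smul_mul_smul_comm, h.csq]
  have e1 : (if i = 0 then (1 : ℂ) else -1) * (if j = 0 then (1 : ℂ) else -1) = -1 := by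
    fin_cases i <;> fin_cases j <;> simp_all
  have e3 : (if j = 0 then (1 : ℂ) else -1) = -(if i = 0 then (1 : ℂ) else -1) := by
    fin_cases i <;> fin_cases j <;> simp_all
  rw [e1, e3, one_mul, one_mul, mul_one]
  have e2 : (1 : H →L[ℂ] H) + (if i = 0 then (1 : ℂ) else -1) • c
      + (-(if i = 0 then (1 : ℂ) else -1) • c + (-1 : ℂ) • (1 : H →L[ℂ] H)) = 0 := by
    rw [neg_smul, neg_smul, one_smul]; abel
  rw [e2, smul_zero]

theorem IsQubit.d_mul_sp (h : IsQubit c d) {i j : Fin 2} (hij : i ≠ j) :
    d * sp c i = sp c j * d := by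
  unfold sp
  rw [mul_smul_comm, smul_mul_assoc, mul_add, add_mul, mul_smul_comm, smul_mul_assoc, h.anti]
  have e3 : (if j = 0 then (1 : ℂ) else -1) = -(if i = 0 then (1 : ℂ) else -1) := by
    fin_cases i <;> fin_cases j <;> simp_all
  rw [e3]
  simp

theorem IsQubit.star_sp (h : IsQubit c d) (i : Fin 2) : star (sp c i) = sp c i := by
  unfold sp
  rw [star_smul, star_add, star_one, star_smul, h.csa]
  split_ifs <;> simp

theorem IsQubit.sp_add (c : H →L[ℂ] H) : sp c 0 + sp c 1 = 1 := by
  unfold sp
  rw [← smul_add]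
  have : (1 : H →L[ℂ] H) + (if (0 : Fin 2) = 0 then (1 : ℂ) else -1) • c
      + (1 + (if (1 : Fin 2) = 0 then (1 : ℂ) else -1) • c) = (2 : ℂ) • 1 := by
    rw [two_smul]; simp only [if_true, one_smul]
    rw [if_neg (by decide), neg_smul, one_smul]; abel
  rw [this, smul_smul]
  norm_num

theorem IsQubit.isMU (h : IsQubit c d) : IsMU (qmu c d) where
  mul i j k l := by
    by_cases hij : i = j
    · subst hij
      by_cases hik : i = k
      · subst hik
        rw [if_pos rfl]
        unfold qmu
        rw [if_pos rfl]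
        split_ifs
        · rw [h.sp_mul_self]
        · rw [← mul_assoc, h.sp_mul_self]
      · rw [if_neg hik]
        unfold qmu
        rw [if_pos rfl]
        split_ifs
        · rw [h.sp_mul_ne hik]
        · rw [← mul_assoc, h.sp_mul_ne hik, zero_mul]
    · by_cases hjk : j = k
      · subst hjk
        rw [if_pos rfl]
        unfold qmu
        rw [if_neg hij]
        by_cases hjl : j = l
        · subst hjl
          rw [if_pos rfl, if_neg hij, mul_assoc, h.d_mul_sp (Ne.symm hij), ← mul_assoc,
            h.sp_mul_self]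
        · have hil : i = l := by
            fin_cases i <;> fin_cases j <;> fin_cases l <;> simp_all
          subst hil
          rw [if_neg hjl, if_pos rfl, mul_assoc, ← mul_assoc d, h.d_mul_sp (Ne.symm hij),
            mul_assoc (sp c i), h.dsq, mul_one, h.sp_mul_self]
      · rw [if_neg hjk]
        have hik : i = k := by
          fin_cases i <;> fin_cases j <;> fin_cases k <;> simp_all
        subst hik
        unfold qmu
        rw [if_neg hij]
        split_ifs
        · rw [mul_assoc, h.d_mul_sp hij, ← mul_assoc, h.sp_mul_ne hij, zero_mul]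
        · rw [mul_assoc, ← mul_assoc d, h.d_mul_sp hij, ← mul_assoc, ← mul_assoc,
            h.sp_mul_ne hij, zero_mul, zero_mul]
  star i j := by
    unfold qmu
    by_cases hij : i = j
    · subst hij; rw [if_pos rfl, h.star_sp]
    · rw [if_neg hij, if_neg (Ne.symm hij), star_mul, h.dsa, h.star_sp, h.d_mul_sp hij]
  one := by
    rw [Fin.sum_univ_two]
    unfold qmu
    rw [if_pos rfl, if_pos rfl]
    exact IsQubit.sp_add c

/-- operators commuting with a qubit commute with its matrix units -/
theorem commute_qmu {t : H →L[ℂ] H} (h1 : Commute t c) (h2 : Commute t d) (i j : Fin 2) :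
    Commute t (qmu c d i j) := by
  have h3 : ∀ i, Commute t (sp c i) := by
    intro i
    unfold sp
    exact ((Commute.one_right t).add_right (h1.smul_right _)).smul_right _
  unfold qmu
  split_ifs
  · exact h3 i
  · exact (h3 i).mul_right h2

/-- product of two commuting systems of matrix units -/
theorem IsMU.prod {ι κ : Type*} [Fintype ι] [DecidableEq ι] [Fintype κ] [DecidableEq κ]
    {e : ι → ι → (H →L[ℂ] H)} {f : κ → κ → (H →L[ℂ] H)} (he : IsMU e) (hf : IsMU f)
    (hc : ∀ i j k l, Commute (e i j) (f k l)) :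
    IsMU (fun (p q : ι × κ) => e p.1 q.1 * f p.2 q.2) where
  mul p q r s := by
    have : e p.1 q.1 * f p.2 q.2 * (e r.1 s.1 * f r.2 s.2)
        = (e p.1 q.1 * e r.1 s.1) * (f p.2 q.2 * f r.2 s.2) := by
      rw [mul_assoc, ← mul_assoc (f p.2 q.2), ← (hc r.1 s.1 p.2 q.2).eq, mul_assoc, ← mul_assoc]
    rw [this, he.mul, hf.mul]
    by_cases h1 : q.1 = r.1
    · by_cases h2 : q.2 = r.2
      · rw [if_pos h1, if_pos h2, if_pos (Prod.ext h1 h2)]
      · have hqr : q ≠ r := fun h => h2 (congrArg Prod.snd h)
        rw [if_neg h2, if_neg hqr, mul_zero]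
    · have hqr : q ≠ r := fun h => h1 (congrArg Prod.fst h)
      rw [if_neg h1, if_neg hqr, zero_mul]
  star p q := by
    rw [star_mul, he.star, hf.star]
    exact (hc _ _ _ _).symm
  one := by
    rw [Fintype.sum_prod_type]
    simp only
    have : ∀ i, ∑ k, e i i * f k k = e i i := by
      intro i
      rw [← Finset.mul_sum, hf.one, mul_one]
    simp only [this]
    exact he.one

/-- a sequence of commuting qubits -/
structure IsQubits (c d : ℕ → (H →L[ℂ] H)) : Prop where
  qubit : ∀ n, IsQubit (c n) (d n)
  cc : ∀ m n, m ≠ n → Commute (c m) (c n)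
  cd : ∀ m n, m ≠ n → Commute (c m) (d n)
  dd : ∀ m n, m ≠ n → Commute (d m) (d n)

theorem IsQubits.symC {c d : ℕ → (H →L[ℂ] H)} (h : IsQubits c d) (k : ℕ) :
    IsSymSeq (fun n => c (n + k)) where
  sa n := (h.qubit _).csa
  sq n := (h.qubit _).csq
  comm m n := by
    by_cases hmn : m + k = n + k
    · rw [hmn]
    · exact h.cc _ _ hmn

theorem IsQubits.symD {c d : ℕ → (H →L[ℂ] H)} (h : IsQubits c d) (k : ℕ) :
    IsSymSeq (fun n => d (n + k)) where
  sa n := (h.qubit _).dsa
  sq n := (h.qubit _).dsq
  comm m n := by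
    by_cases hmn : m + k = n + k
    · rw [hmn]
    · exact h.dd _ _ hmn

/-- the matrix units of the first three qubits -/
noncomputable def mu3 (c d : ℕ → (H →L[ℂ] H)) (p q : Fin 2 × Fin 2 × Fin 2) : H →L[ℂ] H :=
  qmu (c 0) (d 0) p.1 q.1 * (qmu (c 1) (d 1) p.2.1 q.2.1 * qmu (c 2) (d 2) p.2.2 q.2.2)

theorem IsQubits.isMU3 {c d : ℕ → (H →L[ℂ] H)} (h : IsQubits c d) : IsMU (mu3 c d) := by
  have hc : ∀ m n, m ≠ n → ∀ i j k l, Commute (qmu (c m) (d m) i j) (qmu (c n) (d n) k l) := by
    intro m n hmn i j k l
    apply commute_qmu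
    · exact (commute_qmu (h.cc m n hmn).symm (h.cd n m (Ne.symm hmn)) i j).symm
    · exact (commute_qmu (h.cd m n hmn).symm (h.dd m n hmn).symm i j).symm
  have h12 := (h.qubit 1).isMU.prod (h.qubit 2).isMU (hc 1 2 (by norm_num))
  exact (h.qubit 0).isMU.prod h12 (fun i j p q =>
    (hc 0 1 (by norm_num) _ _ _ _).mul_right (hc 0 2 (by norm_num) _ _ _ _))

theorem commute_mu3 {c d : ℕ → (H →L[ℂ] H)} {t : H →L[ℂ] H}
    (ht : ∀ j < 3, Commute t (c j) ∧ Commute t (d j)) (p q : Fin 2 × Fin 2 × Fin 2) :
    Commute t (mu3 c d p q) := by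
  unfold mu3
  exact (commute_qmu (ht 0 (by norm_num)).1 (ht 0 (by norm_num)).2 _ _).mul_right
    ((commute_qmu (ht 1 (by norm_num)).1 (ht 1 (by norm_num)).2 _ _).mul_right
      (commute_qmu (ht 2 (by norm_num)).1 (ht 2 (by norm_num)).2 _ _))

/-- operators commuting with the matrix units of the first three qubits commute with these
qubits -/
theorem commute_of_mu3 {c d : ℕ → (H →L[ℂ] H)} (h : IsQubits c d) {t : H →L[ℂ] H}
    (ht : ∀ p q, Commute t (mu3 c d p q)) (j : ℕ) (hj : j < 3) :
    Commute t (c j) ∧ Commute t (d j) := by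
  have hsum : ∀ n i k, qmu (c n) (d n) i k = qmu (c n) (d n) i k := fun _ _ _ => rfl
  have one1 : ∀ n, qmu (c n) (d n) 0 0 + qmu (c n) (d n) 1 1 = 1 := by
    intro n
    have := (h.qubit n).isMU.one
    rwa [Fin.sum_univ_two] at this
  -- each matrix unit of one of the qubits is a sum of the `mu3`
  have hq0 : ∀ i k, Commute t (qmu (c 0) (d 0) i k) := by
    intro i k
    have e : qmu (c 0) (d 0) i k = ∑ a : Fin 2, ∑ b : Fin 2, mu3 c d (i, a, b) (k, a, b) := by
      unfold mu3
      simp only [Fin.sum_univ_two]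
      rw [← mul_add, ← mul_add, ← mul_add, ← mul_add, ← mul_add, one1, mul_one, mul_one, one1,
        mul_one]
    rw [e]
    exact Commute.sum_right _ _ _ fun a _ => Commute.sum_right _ _ _ fun b _ => ht _ _
  have hq1 : ∀ i k, Commute t (qmu (c 1) (d 1) i k) := by
    intro i k
    have e : qmu (c 1) (d 1) i k = ∑ a : Fin 2, ∑ b : Fin 2, mu3 c d (a, i, b) (a, k, b) := by
      unfold mu3
      simp only [Fin.sum_univ_two]
      rw [← mul_add, ← mul_add, ← mul_add, ← mul_add, one1, mul_one, ← add_mul, one1, one_mul]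
    rw [e]
    exact Commute.sum_right _ _ _ fun a _ => Commute.sum_right _ _ _ fun b _ => ht _ _
  have hq2 : ∀ i k, Commute t (qmu (c 2) (d 2) i k) := by
    intro i k
    have e : qmu (c 2) (d 2) i k = ∑ a : Fin 2, ∑ b : Fin 2, mu3 c d (a, b, i) (a, b, k) := by
      unfold mu3
      simp only [Fin.sum_univ_two]
      rw [← mul_add, ← add_mul, one1, one_mul, ← mul_add, ← add_mul, one1, one_mul, ← add_mul,
        one1, one_mul]
    rw [e]
    exact Commute.sum_right _ _ _ fun a _ => Commute.sum_right _ _ _ fun b _ => ht _ _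
  have key : ∀ n, (∀ i k, Commute t (qmu (c n) (d n) i k)) →
      Commute t (c n) ∧ Commute t (d n) := by
    intro n hn
    constructor
    · have e : c n = qmu (c n) (d n) 0 0 - qmu (c n) (d n) 1 1 := by
        unfold qmu sp
        simp only [if_true]
        rw [← smul_sub]
        have : (1 : H →L[ℂ] H) + (1 : ℂ) • c n
            - (1 + (if (1 : Fin 2) = 0 then (1 : ℂ) else -1) • c n) = (2 : ℂ) • c n := by
          simp [two_smul]
        rw [this, smul_smul]
        norm_num
      rw [e]
      exact (hn 0 0).sub_right (hn 1 1)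
    · have e : d n = qmu (c n) (d n) 0 1 + qmu (c n) (d n) 1 0 := by
        unfold qmu
        rw [if_neg (by decide), if_neg (by decide), ← add_mul, IsQubit.sp_add, one_mul]
      rw [e]
      exact (hn 0 1).add_right (hn 1 0)
  interval_cases j
  · exact key 0 hq0
  · exact key 1 hq1
  · exact key 2 hq2

/-- ONE GENERATOR: if the relative commutant of the first three qubits in `M` is generated by a
commuting sequence of symmetries (the centre), the other qubits and one operator `u`, then `M` is
generated by one operator. -/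
theorem one_generator (M : VonNeumannAlgebra H) (c d : ℕ → (H →L[ℂ] H)) (hq : IsQubits c d)
    (hcM : ∀ n, c n ∈ M) (hdM : ∀ n, d n ∈ M) (z : ℕ → (H →L[ℂ] H)) (hz : IsSymSeq z)
    (hzM : ∀ n, z n ∈ M) (hzc : ∀ n, ∀ j < 3, Commute (z n) (c j) ∧ Commute (z n) (d j))
    (u : H →L[ℂ] H) (huM : u ∈ M) (huc : ∀ j < 3, Commute u (c j) ∧ Commute u (d j))
    (hgen : ∀ y ∈ M, (∀ j < 3, Commute y (c j) ∧ Commute y (d j)) →
      y ∈ Set.centralizer (Set.centralizer
        (Set.range z ∪ (Set.range (fun n => c (n + 3)) ∪ (Set.range (fun n => d (n + 3)) ∪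
          {u, star u}))))) :
    ∃ T : H →L[ℂ] H, (M : Set (H →L[ℂ] H)) =
      Set.centralizer (Set.centralizer ({T, star T} : Set (H →L[ℂ] H))) := by
  classical
  have hmu := hq.isMU3
  -- the self-adjoint operators placed on the diagonal
  let x : Fin 2 × Fin 2 × Fin 2 → (H →L[ℂ] H) := fun p =>
    if p = (0, 0, 0) then symSum z
    else if p = (0, 0, 1) then symSum (fun n => c (n + 3))
    else if p = (0, 1, 0) then symSum (fun n => d (n + 3))
    else if p = (0, 1, 1) then u + star u
    else if p = (1, 0, 0) then Complex.I • (u - star u)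
    else 0
  have hx1 : x (0, 0, 0) = symSum z := rfl
  have hx2 : x (0, 0, 1) = symSum (fun n => c (n + 3)) := rfl
  have hx3 : x (0, 1, 0) = symSum (fun n => d (n + 3)) := rfl
  have hx4 : x (0, 1, 1) = u + star u := rfl
  have hx5 : x (1, 0, 0) = Complex.I • (u - star u) := rfl
  have husc : ∀ j < 3, Commute (star u) (c j) ∧ Commute (star u) (d j) := by
    intro j hj
    constructor
    · have h1 := (huc j hj).1.star_star
      rwa [(hq.qubit j).csa] at h1
    · have h1 := (huc j hj).2.star_star
      rwa [(hq.qubit j).dsa] at h1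
  have hxc : ∀ p, ∀ j < 3, Commute (x p) (c j) ∧ Commute (x p) (d j) := by
    intro p j hj
    simp only [x]
    split_ifs
    · exact ⟨(hz.commute_sum fun n => (hzc n j hj).1.symm).symm,
        (hz.commute_sum fun n => (hzc n j hj).2.symm).symm⟩
    · exact ⟨((hq.symC 3).commute_sum fun n => (hq.cc j (n + 3) (by omega))).symm,
        ((hq.symC 3).commute_sum fun n => (hq.cd (n + 3) j (by omega)).symm).symm⟩
    · exact ⟨((hq.symD 3).commute_sum fun n => (hq.cd j (n + 3) (by omega))).symm,
        ((hq.symD 3).commute_sum fun n => (hq.dd j (n + 3) (by omega))).symm⟩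
    · exact ⟨(huc j hj).1.add_left (husc j hj).1, (huc j hj).2.add_left (husc j hj).2⟩
    · exact ⟨((huc j hj).1.sub_left (husc j hj).1).smul_left _,
        ((huc j hj).2.sub_left (husc j hj).2).smul_left _⟩
    · exact ⟨Commute.zero_left _, Commute.zero_left _⟩
  have hxs : ∀ p, star (x p) = x p := by
    intro p
    simp only [x]
    split_ifs
    · exact hz.star_sum
    · exact (hq.symC 3).star_sum
    · exact (hq.symD 3).star_sum
    · rw [star_add, star_star, add_comm]
    · rw [star_smul, star_sub, star_star]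
      simp only [RCLike.star_def, Complex.conj_I]
      rw [neg_smul, ← smul_neg, neg_sub]
    · simp
  have hxe : ∀ i j k, Commute (x i) (mu3 c d j k) := fun i j k => commute_mu3 (hxc i) j k
  -- an injective real function on the index set
  obtain ⟨lam, hlam⟩ : ∃ lam : Fin 2 × Fin 2 × Fin 2 → ℝ, Function.Injective lam := by
    refine ⟨fun p => ((Fintype.equivFin (Fin 2 × Fin 2 × Fin 2)) p : ℕ), ?_⟩
    intro p q hpq
    have : ((Fintype.equivFin (Fin 2 × Fin 2 × Fin 2)) p : ℕ)
        = ((Fintype.equivFin (Fin 2 × Fin 2 × Fin 2)) q : ℕ) := by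
      simp only at hpq
      exact_mod_cast hpq
    exact (Fintype.equivFin _).injective (Fin.ext this)
  obtain ⟨T, hT⟩ := matrix_trick hmu lam hlam (0, 0, 0) x hxs hxe
  refine ⟨T, ?_⟩
  rw [hT]
  have hMc := M.centralizer_centralizer
  have husM : star u ∈ M := star_mem huM
  apply Set.Subset.antisymm
  · -- every element of `M` is a combination of matrix units and entries
    intro y hy
    rw [Set.mem_centralizer_iff]
    intro t ht
    rw [Set.mem_centralizer_iff] at ht
    have hte : ∀ i j, Commute t (mu3 c d i j) := fun i j =>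
      (ht _ (Or.inl ⟨(i, j), rfl⟩)).symm
    have htx : ∀ p, Commute t (x p) := fun p => (ht _ (Or.inr ⟨p, rfl⟩)).symm
    have htz : ∀ n, Commute t (z n) := fun n => hz.commute_of_sum (hx1 ▸ htx (0, 0, 0)) n
    have htc : ∀ n, Commute t (c (n + 3)) := fun n =>
      (hq.symC 3).commute_of_sum (hx2 ▸ htx (0, 0, 1)) n
    have htd : ∀ n, Commute t (d (n + 3)) := fun n =>
      (hq.symD 3).commute_of_sum (hx3 ▸ htx (0, 1, 0)) n
    have ht4 : Commute t (u + star u) := hx4 ▸ htx (0, 1, 1)
    have ht5 : Commute t (u - star u) := by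
      have h5 : Commute t (Complex.I • (u - star u)) := hx5 ▸ htx (1, 0, 0)
      have h6 := h5.smul_right (-Complex.I)
      rw [smul_smul] at h6
      simpa using h6
    have htu : Commute t u := by
      have h6 := (ht4.add_right ht5).smul_right (1 / 2 : ℂ)
      have e : (1 / 2 : ℂ) • (u + star u + (u - star u)) = u := by
        have : u + star u + (u - star u) = (2 : ℂ) • u := by rw [two_smul]; abel
        rw [this, smul_smul]; norm_num
      rwa [e] at h6
    have htus : Commute t (star u) := by
      have h6 := ht4.sub_right htu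
      rwa [add_sub_cancel_left] at h6
    have hent : ∀ i j, Commute t (∑ k, mu3 c d k i * y * mu3 c d j k) := by
      intro i j
      have hmem : (∑ k, mu3 c d k i * y * mu3 c d j k) ∈ M := by
        apply sum_mem
        intro k _
        have hm : ∀ p q, mu3 c d p q ∈ M := by
          intro p q
          have hs : ∀ n i, sp (c n) i ∈ M := by
            intro n i
            unfold sp
            exact M.smul_mem (add_mem (one_mem _) (M.smul_mem (hcM n) _)) _
          have hqm : ∀ n i j, qmu (c n) (d n) i j ∈ M := by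
            intro n i j
            unfold qmu
            split_ifs
            · exact hs n i
            · exact mul_mem (hs n i) (hdM n)
          unfold mu3
          exact mul_mem (hqm _ _ _) (mul_mem (hqm _ _ _) (hqm _ _ _))
        exact mul_mem (mul_mem (hm _ _) hy) (hm _ _)
      have hcomm := commute_of_mu3 hq (t := ∑ k, mu3 c d k i * y * mu3 c d j k)
        (fun p q => hmu.commute_entry y i j p q)
      have h7 := hgen _ hmem hcomm
      rw [Set.mem_centralizer_iff] at h7
      apply h7
      rw [Set.mem_centralizer_iff]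
      rintro w (⟨n, rfl⟩ | ⟨n, rfl⟩ | ⟨n, rfl⟩ | hw)
      · exact (htz n).symm
      · exact (htc n).symm
      · exact (htd n).symm
      · rcases hw with rfl | hw
        · exact htu.symm
        · rw [Set.mem_singleton_iff] at hw
          subst hw
          exact htus.symm
    have hfin : Commute t y := by
      rw [hmu.expand y]
      exact Commute.sum_right _ _ _ fun i _ => Commute.sum_right _ _ _ fun j _ =>
        (hent i j).mul_right (hte i j)
    exact hfin
  · -- the generators are in `M`
    rw [← hMc]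
    apply Set.centralizer_subset
    intro t ht
    rw [Set.mem_centralizer_iff] at ht ⊢
    have htc : ∀ n, Commute t (c n) := fun n => (ht _ (hcM n)).symm
    have htd : ∀ n, Commute t (d n) := fun n => (ht _ (hdM n)).symm
    have htu : Commute t u := (ht _ huM).symm
    have htus : Commute t (star u) := (ht _ husM).symm
    rintro w (⟨p, rfl⟩ | ⟨p, rfl⟩)
    · exact (commute_mu3 (fun j _ => ⟨htc j, htd j⟩) p.1 p.2).symm
    · simp only [x]
      split_ifs
      · exact (hz.commute_sum fun n => (ht _ (hzM n)).symm).symm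
      · exact ((hq.symC 3).commute_sum fun n => htc _).symm
      · exact ((hq.symD 3).commute_sum fun n => htd _).symm
      · exact (htu.add_right htus).symm
      · exact ((htu.sub_right htus).smul_right _).symm
      · exact (Commute.zero_right _).symm

end

end Pool.Agent.H594R3.GEN
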